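import Pool.Agent.P.MP_3eba60_lc.Test

/-!
From arcs to blocks of digits: the main theorem.
-/

namespace Pool.Agent.P.MP_3eba60_lc

open Real MeasureTheory Filter Topology Finset

lemma irrational_logb {s r : ℕ} (hs : 2 ≤ s) (hr : 2 ≤ r)
    (hind : ∀ m n : ℕ, 0 < m → 0 < n → s ^ m ≠ r ^ n) : Irrational (Real.logb s r) := by
  have hs' : (1 : ℝ) < s := by exact_mod_cast hs
  have hr' : (1 : ℝ) < r := by exact_mod_cast hr
  rintro ⟨q, hq⟩
  have hq0 : (0 : ℝ) < q := by rw [hq]; exact Real.logb_pos hs' hr'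
  have hq0' : 0 < q := by exact_mod_cast hq0
  have hnum : 0 < q.num := Rat.num_pos.2 hq0'
  apply hind q.num.toNat q.den (by omega) q.den_pos
  have h1 : (r : ℝ) = (s : ℝ) ^ (q : ℝ) := by
    rw [hq, Real.rpow_logb (by linarith) (by linarith) (by linarith)]
  have h2 : ((q.num.toNat : ℕ) : ℝ) = q * q.den := by
    have : ((q.num.toNat : ℕ) : ℤ) = q.num := Int.toNat_of_nonneg hnum.le
    have h3 : ((q.num.toNat : ℕ) : ℝ) = ((q.num : ℤ) : ℝ) := by exact_mod_cast this
    rw [h3]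
    exact_mod_cast (Rat.mul_den_eq_num q).symm
  have h3 : (s : ℝ) ^ q.num.toNat = (r : ℝ) ^ q.den := by
    rw [h1, ← Real.rpow_mul_natCast (by linarith), ← h2, Real.rpow_natCast]
  exact_mod_cast h3

lemma digits_shift {r : ℕ} [NeZero r] {x : ℝ} (hx : 0 ≤ x) (i j : ℕ) :
    Real.digits x r (i + j) = Real.digits (Int.fract ((r : ℝ) ^ i * x)) r j := by
  have h0 : (0 : ℝ) ≤ (r : ℝ) ^ i * x := by positivity
  have h1 : x * (r : ℝ) ^ (i + j + 1) = Int.fract ((r : ℝ) ^ i * x) * (r : ℝ) ^ (j + 1)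
      + ((r * (⌊(r : ℝ) ^ i * x⌋₊ * r ^ j) : ℕ) : ℝ) := by
    push_cast
    rw [natCast_floor_eq_intCast_floor h0, Int.fract]
    ring
  unfold Real.digits
  rw [h1, Nat.floor_add_natCast (mul_nonneg (Int.fract_nonneg _) (by positivity))]
  ext
  simp only [Fin.val_ofNat, Nat.add_mul_mod_self_left]

lemma block_arc {r : ℕ} [NeZero r] {x : ℝ} (hx : 0 ≤ x) {l : ℕ} (v : Fin l → Fin r) :
    ∃ c : ℝ, ∀ i, (∀ j : Fin l, Real.digits x r (i + j) = v j) →
      Int.fract (r ^ i * x + c) ≤ ((r : ℝ)⁻¹) ^ l := by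
  refine ⟨-∑ j ∈ range l, Real.ofDigitsTerm (fun j => if h : j < l then v ⟨j, h⟩ else 0) j,
    fun i hi => ?_⟩
  set t := Int.fract ((r : ℝ) ^ i * x) with ht
  have hmem : t ∈ Set.Ico (0 : ℝ) 1 := ⟨Int.fract_nonneg _, Int.fract_lt_one _⟩
  have h1 := Real.le_sum_ofDigitsTerm_digits (b := r) hmem l
  have h2 := Real.sum_ofDigitsTerm_digits_le (b := r) hmem l
  have h3 : ∑ j ∈ range l, Real.ofDigitsTerm (fun j => if h : j < l then v ⟨j, h⟩ else 0) j
      = ∑ j ∈ range l, Real.ofDigitsTerm (Real.digits t r) j := by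
    refine sum_congr rfl fun j hj => ?_
    have hj' := mem_range.1 hj
    unfold Real.ofDigitsTerm
    simp only
    rw [dif_pos hj', ← hi ⟨j, hj'⟩, digits_shift hx]
  rw [h3]
  set S := ∑ j ∈ range l, Real.ofDigitsTerm (Real.digits t r) j
  have h4 : (r : ℝ) ^ i * x + -S = 0 + (t - S) + (⌊(r : ℝ) ^ i * x⌋ : ℤ) := by
    rw [ht, Int.fract]; ring
  rw [h4, Int.fract_add_intCast]
  have := fract_add_le 0 (sub_nonneg.2 h2)
  rw [Int.fract_zero] at this
  linarith

lemma tendsto_of_upper {ι : Type*} [Fintype ι] {B : ι → ℕ → ℝ} {ρ : ℝ}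
    (hρ : ρ * Fintype.card ι = 1) (hsum : ∀ n, ∑ v, B v n = n)
    (hup : ∀ v, ∀ ε > 0, ∀ᶠ n : ℕ in atTop, B v n ≤ (ρ + ε) * n) (v : ι) :
    Tendsto (fun n : ℕ => B v n / n) atTop (𝓝 ρ) := by
  classical
  rw [Metric.tendsto_nhds]
  intro ε hε
  set R : ℝ := (Fintype.card ι : ℝ) with hR
  have hR1 : 1 ≤ R := by
    have : 0 < Fintype.card ι := Fintype.card_pos_iff.2 ⟨v⟩
    rw [hR]; exact_mod_cast this
  filter_upwards [eventually_all.2 fun w => hup w (ε / (2 * R)) (by positivity),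
    eventually_gt_atTop 0] with n hn hn0
  have hn' : (0 : ℝ) < n := by exact_mod_cast hn0
  have h1 := hn v
  have h2 : ∑ w ∈ univ.erase v, B w n ≤ (R - 1) * ((ρ + ε / (2 * R)) * n) := by
    have := sum_le_card_nsmul (univ.erase v) (fun w => B w n) _ fun w _ => hn w
    rw [card_erase_of_mem (mem_univ v), card_univ, nsmul_eq_mul,
      Nat.cast_sub (Fintype.card_pos_iff.2 ⟨v⟩), Nat.cast_one] at this
    exact this
  have h3 := hsum n
  rw [← add_sum_erase _ _ (mem_univ v)] at h3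
  set η := ε / (2 * R) with hη
  have hη0 : 0 < η := by positivity
  have h4 : R * η = ε / 2 := by rw [hη]; field_simp
  have h5 : η ≤ ε / 2 := by nlinarith
  rw [Real.dist_eq, abs_lt, lt_sub_iff_add_lt, sub_lt_iff_lt_add, lt_div_iff₀ hn', div_lt_iff₀ hn']
  have h6 : (R - 1) * ((ρ + η) * n) = (1 - ρ + ε / 2 - η) * n := by
    linear_combination (n : ℝ) * hρ + (n : ℝ) * h4
  constructor <;> nlinarith

theorem main (b b' : ℕ) [NeZero b] [NeZero b'] (hb : 2 ≤ b) (hb' : 2 ≤ b')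
    (hind : ∀ m n : ℕ, 0 < m → 0 < n → b ^ m ≠ b' ^ n)
    (p : Fin b → ℝ) (hp : IsDensity p) (O : Set (ℕ →. ℕ)) (x : ℝ) (hx : x ∈ Set.Icc (0 : ℝ) 1)
    (hrand : IsMartinLofRandom O (bernoulli p) (Real.digits x b)) :
    ∃ q : Fin b' → ℝ, IsDensity q ∧ (∀ d, q d = 1 / b') ∧ IsBiasedNormal b' q x := by
  have hb0 : (0 : ℝ) < b' := by exact_mod_cast (by omega : 0 < b')
  refine ⟨fun _ => 1 / b', ⟨fun _ => by positivity, by simp⟩, fun _ => rfl, ?_⟩
  have hα := irrational_logb hb hb' hind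
  obtain ⟨m, hm⟩ : ∃ m : ℕ, x = Real.ofDigits (Real.digits x b) + m := by
    rcases hx.2.lt_or_eq with h | h
    · exact ⟨0, by rw [Real.ofDigits_digits hb ⟨hx.1, h⟩]; simp⟩
    · refine ⟨1, ?_⟩
      have : Real.digits x b = fun _ => 0 := by
        ext i
        rw [h, Real.digits, one_mul, ← Nat.cast_pow, Nat.floor_natCast]
        simp [pow_succ]
      rw [this, h]
      simp [Real.ofDigits, Real.ofDigitsTerm]
  intro l _ v
  have hprod : ∏ j : Fin l, (fun _ : Fin b' => 1 / (b' : ℝ)) (v j) = ((b' : ℝ)⁻¹) ^ l := by simp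
  rw [hprod]
  refine tendsto_of_upper (ι := Fin l → Fin b')
    (B := fun v n => (((range n).filter
      fun i => ∀ j : Fin l, Real.digits x b' (i + j) = v j).card : ℝ)) ?_ ?_ ?_ v
  · simp only [Fintype.card_pi, Fintype.card_fin, prod_const, card_univ, Nat.cast_pow]
    rw [← mul_pow, inv_mul_cancel₀ hb0.ne', one_pow]
  · intro n
    have := card_eq_sum_card_fiberwise (f := fun i (j : Fin l) => Real.digits x b' (i + j))
      (s := range n) (t := univ) fun _ _ => mem_coe.2 (mem_univ _)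
    rw [card_range] at this
    conv_rhs => rw [this]
    push_cast
    refine sum_congr rfl fun w _ => ?_
    congr 2
    ext i
    simp only [funext_iff]
  · intro w ε hε
    obtain ⟨c, hc⟩ := block_arc hx.1 w
    filter_upwards [random_cnt hb hp hb' hα hrand c (δ := ((b' : ℝ)⁻¹) ^ l + ε / 2) (ε := ε / 2)
      (by positivity) (by positivity)] with n hn
    rw [add_assoc, add_halves] at hn
    refine le_trans ?_ hn
    refine Nat.cast_le.2 (card_le_card fun i hi => ?_)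
    rw [mem_filter] at hi ⊢
    refine ⟨hi.1, ?_⟩
    have h1 := hc i hi.2
    have h2 : (b' : ℝ) ^ i * x + c
        = b' ^ i * Real.ofDigits (Real.digits x b) + c + ((b' ^ i * m : ℕ) : ℝ) := by
      conv_lhs => rw [hm]
      push_cast; ring
    rw [h2, Int.fract_add_natCast] at h1
    linarith

end Pool.Agent.P.MP_3eba60_lc
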