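import Pool.Agent.P.MP_3eba60_lc.Freq
import Pool.Agent.P.MP_3eba60_lc.Main

/-!
The classification over all pairs of bases.
-/

namespace Pool.Agent.P.MP_3eba60_lc

open Filter Topology Finset

theorem dep_iff (b b' : ℕ) [NeZero b] [NeZero b'] (hb : 2 ≤ b)
    (hdep : ∃ M N : ℕ, 0 < M ∧ 0 < N ∧ b ^ M = b' ^ N)
    (p : Fin b → ℝ) (hp : IsDensity p) (O : Set (ℕ →. ℕ)) (x : ℝ)
    (hrand : IsMartinLofRandom O (bernoulli p) (Real.digits x b)) (q : Fin b' → ℝ) :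
    (IsDensity q ∧ IsBiasedNormal b' q x) ↔
      ∃ c m n : ℕ, 2 ≤ c ∧ 0 < m ∧ 0 < n ∧ m.Coprime n ∧ b = c ^ m ∧ b' = c ^ n ∧
        ∃ r : ℕ → ℝ, (∀ e < c, 0 < r e) ∧ ∑ e ∈ range c, r e = 1 ∧
          (∀ d : Fin b, p d = ∏ i ∈ range m, r (d / c ^ i % c)) ∧
          ∀ e : Fin b', q e = ∏ i ∈ range n, r (e / c ^ i % c) := by
  constructor
  · intro h
    obtain ⟨M, N, hM, hN, hMN⟩ := hdep
    obtain ⟨c, m, n, hc, hm, hn, hmn, e1, e2⟩ := exists_root hb hM hN hMN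
    exact ⟨c, m, n, hc, hm, hn, hmn, e1, e2, (dependent hc hm hn hmn e1 e2 hp hrand q).1 h⟩
  · rintro ⟨c, m, n, hc, hm, hn, hmn, e1, e2, h⟩
    exact (dependent hc hm hn hmn e1 e2 hp hrand q).2 h

lemma normal_unique {b : ℕ} [NeZero b] {q q' : Fin b → ℝ} {x : ℝ} (h : IsBiasedNormal b q x)
    (h' : IsBiasedNormal b q' x) (d : Fin b) : q d = q' d := by
  simpa using tendsto_nhds_unique (h 1 le_rfl fun _ => d) (h' 1 le_rfl fun _ => d)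

theorem all_iff (b b' : ℕ) [NeZero b] [NeZero b'] (hb : 2 ≤ b) (hb' : 2 ≤ b')
    (p : Fin b → ℝ) (hp : IsDensity p) (O : Set (ℕ →. ℕ)) (x : ℝ) (hx : x ∈ Set.Icc (0 : ℝ) 1)
    (hrand : IsMartinLofRandom O (bernoulli p) (Real.digits x b)) (q : Fin b' → ℝ) :
    (IsDensity q ∧ IsBiasedNormal b' q x) ↔
      ((∀ m n : ℕ, 0 < m → 0 < n → b ^ m ≠ b' ^ n) ∧ ∀ e, q e = 1 / b') ∨
      ∃ c m n : ℕ, 2 ≤ c ∧ 0 < m ∧ 0 < n ∧ m.Coprime n ∧ b = c ^ m ∧ b' = c ^ n ∧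
        ∃ r : ℕ → ℝ, (∀ e < c, 0 < r e) ∧ ∑ e ∈ range c, r e = 1 ∧
          (∀ d : Fin b, p d = ∏ i ∈ range m, r (d / c ^ i % c)) ∧
          ∀ e : Fin b', q e = ∏ i ∈ range n, r (e / c ^ i % c) := by
  by_cases hind : ∀ m n : ℕ, 0 < m → 0 < n → b ^ m ≠ b' ^ n
  · obtain ⟨q0, h1, h2, h3⟩ := main b b' hb hb' hind p hp O x hx hrand
    constructor
    · exact fun h => Or.inl ⟨hind, fun e => (normal_unique h.2 h3 e).trans (h2 e)⟩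
    · rintro (⟨-, h⟩ | ⟨c, m, n, -, hm, hn, -, e1, e2, -⟩)
      · obtain rfl : q = q0 := funext fun e => (h e).trans (h2 e).symm
        exact ⟨h1, h3⟩
      · exact absurd (by rw [e1, e2, ← pow_mul, ← pow_mul, mul_comm]) (hind n m hn hm)
  · have hdep : ∃ M N : ℕ, 0 < M ∧ 0 < N ∧ b ^ M = b' ^ N := by
      by_contra h
      exact hind fun m n hm hn e => h ⟨m, n, hm, hn, e⟩
    rw [dep_iff b b' hb hdep p hp O x hrand q]
    exact ⟨Or.inr, fun h => h.resolve_left fun h' => hind h'.1⟩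

end Pool.Agent.P.MP_3eba60_lc
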