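import Pool.Agent.P.MP_3eba60_lc.Defs

/-!
Weights of patterns of base `c` digits under an i.i.d. law on blocks of `m` digits.
-/

namespace Pool.Agent.P.MP_3eba60_lc

open Finset

noncomputable section

/-- The `u`-th base `c` digit, counted from the most significant one, of an `m`-digit number. -/
def dg (c m d u : ℕ) : ℕ := d / c ^ (m - 1 - u) % c

/-- The constraint which the pattern `B` of length `L` placed at position `j` puts on block `k`. -/
def Box (c m : ℕ) (B : ℕ → ℕ → Prop) (L j k d : ℕ) : Prop :=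
  ∀ t < L, ∀ u < m, j + t = m * k + u → B t (dg c m d u)

open Classical in
/-- The weight of the constraint on block `k`. -/
def wt (c m : ℕ) {b : ℕ} (p : Fin b → ℝ) (B : ℕ → ℕ → Prop) (L j k : ℕ) : ℝ :=
  ∑ d : Fin b, if Box c m B L j k d then p d else 0

/-- The weight of the pattern `B` of length `L` placed at position `j`. -/
def Wt (c m : ℕ) {b : ℕ} (p : Fin b → ℝ) (B : ℕ → ℕ → Prop) (L j : ℕ) : ℝ :=
  ∏ k ∈ range (j + L), wt c m p B L j k

variable {c m b : ℕ} {p : Fin b → ℝ}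

lemma wt_congr {B B' : ℕ → ℕ → Prop} {L j k L' j' k' : ℕ}
    (h : ∀ d, Box c m B L j k d ↔ Box c m B' L' j' k' d) :
    wt c m p B L j k = wt c m p B' L' j' k' := by
  classical
  unfold wt
  exact sum_congr rfl fun d _ => if_congr (h d) rfl rfl

lemma wt_one (hp : IsDensity p) {B : ℕ → ℕ → Prop} {L j k : ℕ} (h : j + L ≤ m * k) :
    wt c m p B L j k = 1 := by
  unfold wt
  rw [← hp.2]
  exact sum_congr rfl fun d _ => if_pos fun t ht u _ h' => by omega

lemma Wt_eq (hp : IsDensity p) (hm : 0 < m) {B : ℕ → ℕ → Prop} {L j K : ℕ} (h : j + L ≤ m * K) :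
    Wt c m p B L j = ∏ k ∈ range K, wt c m p B L j k := by
  unfold Wt
  have h2 : ∀ N, j + L ≤ m * N → N ≤ K + (j + L) →
      ∏ k ∈ range N, wt c m p B L j k = ∏ k ∈ range (K + (j + L)), wt c m p B L j k := by
    intro N hN hN'
    refine prod_subset (range_subset_range.2 hN') fun k _ hk => wt_one hp ?_
    rw [mem_range, not_lt] at hk
    exact hN.trans (Nat.mul_le_mul_left _ hk)
  rw [h2 (j + L) (Nat.le_mul_of_pos_left _ hm) (by omega), h2 K h (by omega)]

lemma Wt_congr (hp : IsDensity p) (hm : 0 < m) {B B' : ℕ → ℕ → Prop} {L j L' j' : ℕ}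
    (h : ∀ z e, (∀ t < L, j + t = z → B t e) ↔ ∀ t < L', j' + t = z → B' t e) :
    Wt c m p B L j = Wt c m p B' L' j' := by
  rw [Wt_eq hp hm (K := j + L + (j' + L'))
      (le_trans (by omega) (Nat.le_mul_of_pos_left _ hm)),
    Wt_eq hp hm (K := j + L + (j' + L')) (le_trans (by omega) (Nat.le_mul_of_pos_left _ hm))]
  refine prod_congr rfl fun k _ => wt_congr fun d => ?_
  exact ⟨fun H t ht u hu e => (h _ _).1 (fun t' ht' e' => H t' ht' u hu e') t ht e,
    fun H t ht u hu e => (h _ _).2 (fun t' ht' e' => H t' ht' u hu e') t ht e⟩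

lemma Wt_split (hp : IsDensity p) (hm : 0 < m) (B : ℕ → ℕ → Prop) {L j k0 : ℕ} (L' : ℕ)
    (h : j + L = m * k0) :
    Wt c m p B (L + L') j = Wt c m p B L j * Wt c m p (fun t => B (L + t)) L' 0 := by
  have hL' : L' ≤ m * L' := Nat.le_mul_of_pos_left _ hm
  rw [Wt_eq hp hm (K := k0 + L') (by rw [mul_add]; omega), Wt_eq hp hm (K := k0) h.le,
    Wt_eq hp hm (K := L') (by omega), prod_range_add]
  congr 1
  · refine prod_congr rfl fun k hk => wt_congr fun d => ?_
    have : m * (k + 1) ≤ m * k0 := Nat.mul_le_mul_left _ (mem_range.1 hk)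
    rw [mul_add] at this
    exact ⟨fun H t ht u hu e => H t (by omega) u hu e, fun H t ht u hu e => H t (by omega) u hu e⟩
  · refine prod_congr rfl fun k _ => wt_congr fun d => ?_
    refine ⟨fun H t ht u hu e => H (L + t) (by omega) u hu (by rw [mul_add]; omega),
      fun H t ht u hu e => ?_⟩
    rw [mul_add] at e
    obtain ⟨t', rfl⟩ : ∃ t', t = L + t' := ⟨t - L, by omega⟩
    exact H t' (by omega) u hu (by omega)

/-- The pattern `B` followed by a copy of `B` at distance `D`. -/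
def twice (B : ℕ → ℕ → Prop) (L D : ℕ) : ℕ → ℕ → Prop :=
  fun t e => (t < L → B t e) ∧ ∀ t', t = D + t' → B t' e

lemma Wt_twice (hp : IsDensity p) (hm : 0 < m) (B : ℕ → ℕ → Prop) {L j D k0 : ℕ}
    (hD : D = m * k0) (h : j + L ≤ D) :
    Wt c m p (twice B L D) (D + L) j = Wt c m p B L j ^ 2 := by
  obtain ⟨E, hE⟩ : ∃ E, D = j + E := ⟨D - j, by omega⟩
  have h1 : D + L = E + (j + L) := by omega
  rw [h1, Wt_split hp hm _ _ (k0 := k0) (by omega), sq]
  congr 1
  · refine Wt_congr hp hm fun z e => ⟨fun H t ht e' => (H t (by omega) e').1 ht,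
      fun H t ht e' => ⟨fun ht' => H t ht' e', fun t' ht' => by omega⟩⟩
  · refine Wt_congr hp hm fun z e => ⟨fun H t ht e' => (H (j + t) (by omega) (by omega)).2 t
      (by omega), fun H t ht e' => ⟨fun ht' => by omega, fun t' ht' => H t' (by omega) (by omega)⟩⟩

lemma dg_inj {d d' : ℕ} (hd : d < c ^ m) (hd' : d' < c ^ m)
    (h : ∀ u < m, dg c m d u = dg c m d' u) : d = d' := by
  have : finFunctionFinEquiv.symm (⟨d, hd⟩ : Fin (c ^ m))
      = finFunctionFinEquiv.symm (⟨d', hd'⟩ : Fin (c ^ m)) := by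
    ext i
    have := h (m - 1 - i) (by omega)
    unfold dg at this
    rw [show m - 1 - (m - 1 - i) = i by omega] at this
    exact this
  simpa using this

lemma Wt_block (hb : b = c ^ m) (hp : IsDensity p) (hm : 0 < m) (d : Fin b) :
    Wt c m p (fun t e => e = dg c m d t) m 0 = p d := by
  classical
  rw [Wt_eq hp hm (K := 1) (by omega), prod_range_one, wt, sum_eq_single d]
  · exact if_pos fun t _ u _ e => by rw [show t = u by omega]
  · intro d' _ hd
    refine if_neg fun H => hd (Fin.ext (dg_inj (d'.2.trans_eq hb) (d.2.trans_eq hb) fun u hu => ?_))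
    exact H u hu u hu (by omega)
  · simp

lemma prod_dg (r : ℕ → ℝ) (d : ℕ) :
    ∏ t ∈ range m, r (dg c m d t) = ∏ i ∈ range m, r (d / c ^ i % c) :=
  prod_range_reflect (fun i => r (d / c ^ i % c)) m

/-- If all phases give the same weights, the digits are i.i.d. -/
lemma Wt_iid (hp : IsDensity p) (hm : 0 < m)
    (h : ∀ (B : ℕ → ℕ → Prop) (L : ℕ), ∀ j < m, Wt c m p B L j = Wt c m p B L 0)
    (V : ℕ → ℕ) (L : ℕ) : Wt c m p (fun t e => e = V t) L 0
      = ∏ t ∈ range L, Wt c m p (fun _ e => e = V t) 1 0 := by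
  induction L with
  | zero => simp [Wt]
  | succ L ih =>
    obtain ⟨j, hj, k0, hk⟩ : ∃ j < m, ∃ k0, j + L = m * k0 := by
      have h1 := Nat.div_add_mod L m
      have h2 := Nat.mod_lt L hm
      rcases Nat.eq_zero_or_pos (L % m) with h0 | h0
      · exact ⟨0, hm, L / m, by omega⟩
      · exact ⟨m - L % m, by omega, L / m + 1, by rw [mul_add]; omega⟩
    rw [prod_range_succ, ← ih, ← h _ _ j hj, Wt_split hp hm _ 1 hk, h _ _ j hj]
    congr 1
    refine Wt_congr hp hm fun z e => ⟨fun H t ht e' => ?_, fun H t ht e' => ?_⟩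
    · have := H t ht e'
      rwa [show t = 0 by omega] at this
    · have := H t ht e'
      rwa [show t = 0 by omega]

lemma sum_prod_digits (f : ℕ → ℕ → ℝ) :
    ∑ d : Fin (c ^ m), ∏ i ∈ range m, f i (d / c ^ i % c)
      = ∏ i ∈ range m, ∑ e ∈ range c, f i e := by
  rw [prod_range]
  simp only [sum_range]
  rw [prod_univ_sum, Fintype.piFinset_univ]
  refine Fintype.sum_equiv finFunctionFinEquiv.symm _ _ fun d => ?_
  rw [prod_range]
  rfl

/-- Weights of patterns under a product law. -/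
lemma Wt_prod (hm : 0 < m) {p : Fin (c ^ m) → ℝ} {r : ℕ → ℝ}
    (hr : ∑ e ∈ range c, r e = 1) (hpr : ∀ d, p d = ∏ i ∈ range m, r (d / c ^ i % c))
    {V : ℕ → ℕ} (hV : ∀ t, V t < c) (L j : ℕ) :
    Wt c m p (fun t e => e = V t) L j = ∏ t ∈ range L, r (V t) := by
  classical
  let g : ℕ → ℕ → ℝ := fun z e => if ∀ t < L, j + t = z → e = V t then r e else 0
  have h1 : ∀ k, wt c m p (fun t e => e = V t) L j k
      = ∏ u ∈ range m, ∑ e ∈ range c, g (m * k + u) e := by
    intro k
    rw [← prod_range_reflect, ← sum_prod_digits fun i e => g (m * k + (m - 1 - i)) e, wt]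
    refine sum_congr rfl fun d _ => ?_
    simp only [g]
    rw [prod_ite_zero, hpr]
    refine if_congr ⟨fun H i hi t ht e => ?_, fun H t ht u hu e => ?_⟩ rfl rfl
    · have hi' := mem_range.1 hi
      have := H t ht (m - 1 - i) (by omega) e
      unfold dg at this
      rwa [show m - 1 - (m - 1 - i) = i by omega] at this
    · exact H (m - 1 - u) (mem_range.2 (by omega)) t ht (by omega)
  have h2 : ∀ K, ∏ k ∈ range K, ∏ u ∈ range m, ∑ e ∈ range c, g (m * k + u) e
      = ∏ z ∈ range (m * K), ∑ e ∈ range c, g z e := by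
    intro K
    induction K with
    | zero => simp
    | succ K ih => rw [prod_range_succ, ih, mul_add, mul_one, prod_range_add]
  have h3 : ∀ z, (z < j ∨ j + L ≤ z) → ∑ e ∈ range c, g z e = 1 := by
    intro z hz
    rw [← hr]
    exact sum_congr rfl fun e _ => if_pos fun t ht e' => by omega
  obtain ⟨R, hR⟩ : ∃ R, m * (j + L) = j + L + R :=
    ⟨_, (Nat.add_sub_cancel' (Nat.le_mul_of_pos_left _ hm)).symm⟩
  rw [Wt, prod_congr rfl fun k _ => h1 k, h2, hR, prod_range_add, prod_range_add,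
    prod_eq_one fun z hz => h3 z (Or.inl (mem_range.1 hz)),
    prod_eq_one (s := range R) fun z _ => h3 _ (Or.inr (by omega)), one_mul, mul_one]
  refine prod_congr rfl fun t ht => ?_
  rw [sum_eq_single (V t)]
  · exact if_pos fun t' _ e => by rw [show t = t' by omega]
  · exact fun e _ he => if_neg fun H => he (H t (mem_range.1 ht) rfl)
  · exact fun H => absurd (mem_range.2 (hV t)) H

/-- If the average over phases of an i.i.d. block law is an i.i.d. block law, all phases agree. -/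
lemma phases_eq {n b' : ℕ} {q : Fin b' → ℝ} (hp : IsDensity p) (hq : IsDensity q) (hm : 0 < m)
    (hn : 0 < n) (hmn : m.Coprime n)
    (h : ∀ (B : ℕ → ℕ → Prop) (L K : ℕ), L + 1 ≤ K →
      ∑ ρ ∈ range (m * K), Wt c m p B L (n * ρ % m) = (m * K : ℕ) * Wt c n q B L 0)
    (B : ℕ → ℕ → Prop) (L : ℕ) {j : ℕ} (hj : j < m) : Wt c m p B L j = Wt c n q B L 0 := by
  set D := m * (n * (m + L)) with hD
  have hD1 : m + L ≤ D :=
    (Nat.le_mul_of_pos_left _ hn).trans (Nat.le_mul_of_pos_left _ hm)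
  have h1 := h B L (D + L + 1) (by omega)
  have h2 := h (twice B L D) (D + L) (D + L + 1) le_rfl
  rw [Wt_twice hq hn B (k0 := m * (m + L)) (by rw [hD]; ring) (by omega),
    sum_congr rfl fun ρ _ => Wt_twice hp hm B (j := n * ρ % m) hD
      (by have := Nat.mod_lt (n * ρ) hm; omega)] at h2
  set M := m * (D + L + 1) with hM
  set A := Wt c n q B L 0
  have h3 : ∑ ρ ∈ range M, (Wt c m p B L (n * ρ % m) - A) ^ 2 = 0 := by
    simp only [sub_sq, sum_add_distrib, sum_sub_distrib, ← sum_mul, ← mul_sum, h1, h2, sum_const,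
      card_range, nsmul_eq_mul]
    ring
  obtain ⟨ρ, hρ, hρj⟩ : ∃ ρ < m, n * ρ % m = j := by
    have := Nat.exists_mul_mod_eq_of_coprime j hmn.symm hm.ne'
    rwa [Nat.mod_eq_of_lt hj] at this
  have h4 := (sum_eq_zero_iff_of_nonneg fun _ _ => sq_nonneg _).1 h3 ρ
    (mem_range.2 (hρ.trans_le (Nat.le_mul_of_pos_right _ (by omega))))
  rw [hρj] at h4
  exact sub_eq_zero.1 (pow_eq_zero_iff two_ne_zero |>.1 h4)

lemma rigid {n b' : ℕ} {q : Fin b' → ℝ} (hc : 2 ≤ c) (hb : b = c ^ m) (hb' : b' = c ^ n)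
    (hp : IsDensity p) (hq : IsDensity q) (hm : 0 < m) (hn : 0 < n)
    (h : ∀ (B : ℕ → ℕ → Prop) (L : ℕ), ∀ j < m, Wt c m p B L j = Wt c n q B L 0) :
    ∃ r : ℕ → ℝ, (∀ e < c, 0 < r e) ∧ ∑ e ∈ range c, r e = 1 ∧
      (∀ d : Fin b, p d = ∏ i ∈ range m, r (d / c ^ i % c)) ∧
      ∀ e : Fin b', q e = ∏ i ∈ range n, r (e / c ^ i % c) := by
  classical
  have hi := Wt_iid (c := c) hp hm fun B L j hj => (h B L j hj).trans (h B L 0 hm).symm
  have hr : ∀ e, Wt c m p (fun _ e' => e' = e) 1 0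
      = ∑ d : Fin b, if dg c m d 0 = e then p d else 0 := by
    intro e
    rw [Wt_eq hp hm (K := 1) (by omega), prod_range_one, wt]
    refine sum_congr rfl fun d _ => if_congr ⟨fun H => H 0 one_pos 0 hm rfl, ?_⟩ rfl rfl
    intro H t ht u _ e'
    rwa [show u = 0 by omega]
  refine ⟨fun e => Wt c m p (fun _ e' => e' = e) 1 0, fun e he => ?_, ?_, fun d => ?_, fun e => ?_⟩
  · have hpos : 0 < c ^ (m - 1) := by positivity
    have hlt : e * c ^ (m - 1) < b := by
      rw [hb, show m = m - 1 + 1 by omega, pow_succ', Nat.add_sub_cancel]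
      exact Nat.mul_lt_mul_of_pos_right he hpos
    simp only [hr]
    refine sum_pos' (fun d _ => ?_) ⟨⟨_, hlt⟩, mem_univ _, ?_⟩
    · split_ifs
      · exact (hp.1 d).le
      · exact le_rfl
    · rw [if_pos]
      · exact hp.1 _
      · simp only [dg, Nat.sub_zero]
        rw [Nat.mul_div_cancel _ hpos, Nat.mod_eq_of_lt he]
  · simp only [hr]
    rw [sum_comm, ← hp.2]
    refine sum_congr rfl fun d _ => ?_
    rw [sum_ite_eq]
    exact if_pos (mem_range.2 (Nat.mod_lt _ (by omega)))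
  · rw [← Wt_block hb hp hm d, hi]
    exact prod_dg (fun e => Wt c m p (fun _ e' => e' = e) 1 0) d
  · rw [← Wt_block hb' hq hn e, ← h _ _ 0 hm, hi]
    exact prod_dg (fun e => Wt c m p (fun _ e' => e' = e) 1 0) e

end

end Pool.Agent.P.MP_3eba60_lc
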