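import Mathlib

/-!
Continuous periodic functions: an induction principle from characters, majorants, and Weyl's
equidistribution theorem for the multiples of an irrational number.
-/

namespace Pool.Agent.P.MP_3eba60_lc

open Complex Real MeasureTheory Filter Topology Finset

noncomputable section

/-- `ee t = exp(2 π i t)`. -/
def ee (t : ℝ) : ℂ := cexp (2 * π * I * t)

lemma ee_add (a b : ℝ) : ee (a + b) = ee a * ee b := by
  unfold ee; rw [← Complex.exp_add]; congr 1; push_cast; ring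

lemma norm_ee (a : ℝ) : ‖ee a‖ = 1 := by
  unfold ee
  rw [show 2 * π * I * a = ((2 * π * a : ℝ) : ℂ) * I by push_cast; ring]
  exact Complex.norm_exp_ofReal_mul_I _

@[fun_prop]
lemma continuous_ee : Continuous ee := by unfold ee; fun_prop

lemma ee_zero : ee 0 = 1 := by simp [ee]

lemma norm_ee_sub (a b : ℝ) : ‖ee a - ee b‖ ≤ 2 * π * |a - b| := by
  have : ee a - ee b = ee b * (ee (a - b) - 1) := by
    rw [mul_sub, ← ee_add, mul_one]; congr 2; ring
  rw [this, norm_mul, norm_ee, one_mul]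
  have h := Real.norm_exp_I_mul_ofReal_sub_one_le (x := 2 * π * (a - b))
  have h2 : ee (a - b) = cexp (I * ((2 * π * (a - b) : ℝ) : ℂ)) := by
    unfold ee; congr 1; push_cast; ring
  rw [h2]
  refine h.trans (le_of_eq ?_)
  rw [Real.norm_eq_abs, abs_mul, abs_of_pos (by positivity : (0 : ℝ) < 2 * π)]

lemma integral_ee {h : ℤ} (hh : h ≠ 0) : ∫ t in (0 : ℝ)..1, ee (h * t) = 0 := by
  have hc : (2 * π * I * h : ℂ) ≠ 0 := by simp [Real.pi_ne_zero, hh]
  have : ∀ t : ℝ, ee (h * t) = cexp ((2 * π * I * h) * t) := by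
    intro t; unfold ee; congr 1; push_cast; ring
  simp only [this]
  rw [integral_exp_mul_complex hc]
  have h1 : cexp (2 * π * I * h * ((1 : ℝ) : ℂ)) = 1 := by
    rw [ofReal_one, mul_one, mul_comm]; exact Complex.exp_int_mul_two_pi_mul_I h
  rw [h1]; simp

theorem periodic_induction (Good : (ℝ → ℂ) → Prop) (hchar : ∀ h : ℤ, Good fun t => ee (h * t))
    (hadd : ∀ f g : ℝ → ℂ, Continuous f → Continuous g → Good f → Good g →
      Good fun t => f t + g t)
    (hsmul : ∀ (c : ℂ) (f : ℝ → ℂ), Continuous f → Good f → Good fun t => c * f t)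
    (hlim : ∀ g : ℝ → ℂ, Continuous g →
      (∀ ε > 0, ∃ P : ℝ → ℂ, Continuous P ∧ Good P ∧ ∀ t, ‖g t - P t‖ ≤ ε) → Good g)
    {g : ℝ → ℂ} (hg : Continuous g) (hper : Function.Periodic g 1) : Good g := by
  have : Fact ((0 : ℝ) < 1) := ⟨one_pos⟩
  let G : C(AddCircle (1 : ℝ), ℂ) := ⟨hper.lift, hg.quotient_liftOn' _⟩
  have hG : ∀ x : ℝ, G (x : AddCircle (1 : ℝ)) = g x := fun x => hper.lift_coe x
  have hc : ∀ P : C(AddCircle (1 : ℝ), ℂ), Continuous fun t : ℝ => P (t : AddCircle (1 : ℝ)) :=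
    fun P => P.continuous.comp (AddCircle.continuous_mk' 1)
  have hspan : ∀ P ∈ Submodule.span ℂ (Set.range (@fourier 1)),
      Good fun t : ℝ => P (t : AddCircle (1 : ℝ)) := by
    intro P hP
    induction hP using Submodule.span_induction with
    | mem x hx =>
      obtain ⟨h, rfl⟩ := hx
      convert hchar h using 2 with t
      rw [fourier_coe_apply]; unfold ee; congr 1; push_cast; ring
    | zero =>
      convert hsmul 0 _ (by fun_prop) (hchar 0) using 2
      simp
    | add x y _ _ hx hy => exact hadd _ _ (hc x) (hc y) hx hy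
    | smul a x _ hx => exact hsmul a _ (hc x) hx
  refine hlim g hg fun ε hε => ?_
  have hmem : G ∈ closure (Submodule.span ℂ (Set.range (@fourier 1)) : Set C(AddCircle (1 : ℝ), ℂ)) := by
    rw [← Submodule.topologicalClosure_coe, span_fourier_closure_eq_top]; trivial
  obtain ⟨P, hP, hd⟩ := Metric.mem_closure_iff.1 hmem ε hε
  refine ⟨_, hc P, hspan P hP, fun t => ?_⟩
  rw [← hG, ← dist_eq_norm]
  exact (ContinuousMap.dist_apply_le_dist _).trans hd.le

lemma norm_integral_sub_le {g P : ℝ → ℂ} (hg : Continuous g) (hP : Continuous P) {ε : ℝ}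
    (h : ∀ t, ‖g t - P t‖ ≤ ε) :
    ‖(∫ t in (0 : ℝ)..1, g t) - ∫ t in (0 : ℝ)..1, P t‖ ≤ ε := by
  rw [← intervalIntegral.integral_sub (hg.intervalIntegrable _ _) (hP.intervalIntegrable _ _)]
  simpa using intervalIntegral.norm_integral_le_of_norm_le_const (a := 0) (b := 1)
    (f := fun t => g t - P t) (C := ε) fun t _ => h t

/-- The discrepancy of `g` along a finite piece of a sequence. -/
def disc (g : ℝ → ℂ) (a : ℕ → ℝ) (N : ℕ) : ℂ :=
  ∑ n ∈ range N, g (a n) - N * ∫ t in (0 : ℝ)..1, g t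

lemma disc_add {f g : ℝ → ℂ} (hf : Continuous f) (hg : Continuous g) (a : ℕ → ℝ) (N : ℕ) :
    disc (fun t => f t + g t) a N = disc f a N + disc g a N := by
  unfold disc
  rw [intervalIntegral.integral_add (hf.intervalIntegrable _ _) (hg.intervalIntegrable _ _),
    sum_add_distrib]
  ring

lemma disc_smul (c : ℂ) (f : ℝ → ℂ) (a : ℕ → ℝ) (N : ℕ) :
    disc (fun t => c * f t) a N = c * disc f a N := by
  unfold disc
  rw [intervalIntegral.integral_const_mul, ← mul_sum]
  ring

lemma norm_disc_le {g P : ℝ → ℂ} (hg : Continuous g) (hP : Continuous P) {ε : ℝ}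
    (h : ∀ t, ‖g t - P t‖ ≤ ε) (a : ℕ → ℝ) (N : ℕ) :
    ‖disc g a N‖ ≤ ‖disc P a N‖ + 2 * ε * N := by
  have h1 : disc g a N = disc P a N + (∑ n ∈ range N, (g (a n) - P (a n))
      - N * ((∫ t in (0 : ℝ)..1, g t) - ∫ t in (0 : ℝ)..1, P t)) := by
    unfold disc; rw [sum_sub_distrib]; ring
  rw [h1]
  refine (norm_add_le _ _).trans (add_le_add le_rfl ((norm_sub_le _ _).trans ?_))
  have h2 : ‖∑ n ∈ range N, (g (a n) - P (a n))‖ ≤ N * ε := by
    refine (norm_sum_le _ _).trans ?_
    simpa using sum_le_card_nsmul (range N) (fun n => ‖g (a n) - P (a n)‖) ε fun n _ => h _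
  have h3 := norm_integral_sub_le hg hP h
  rw [norm_mul, Complex.norm_natCast]
  have := mul_le_mul_of_nonneg_left h3 (Nat.cast_nonneg (α := ℝ) N)
  linarith

lemma disc_char_zero (a : ℕ → ℝ) (N : ℕ) : disc (fun t => ee (((0 : ℤ) : ℝ) * t)) a N = 0 := by
  simp [disc, ee_zero]

lemma disc_char {h : ℤ} (hh : h ≠ 0) (a : ℕ → ℝ) (N : ℕ) :
    disc (fun t => ee (h * t)) a N = ∑ n ∈ range N, ee (h * a n) := by
  unfold disc; rw [integral_ee hh]; simp

/-- Weyl's theorem for the multiples of an irrational number. -/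
theorem weyl {α : ℝ} (hα : Irrational α) {g : ℝ → ℂ} (hg : Continuous g)
    (hper : Function.Periodic g 1) :
    ∀ ε > 0, ∀ᶠ N : ℕ in atTop, ‖disc g (fun n => n * α) N‖ ≤ ε * N := by
  refine periodic_induction
    (fun g => ∀ ε > 0, ∀ᶠ N : ℕ in atTop, ‖disc g (fun n => n * α) N‖ ≤ ε * N) ?_ ?_ ?_ ?_ hg hper
  · intro h ε hε
    by_cases hh : h = 0
    · subst hh
      filter_upwards with N
      rw [disc_char_zero, norm_zero]; positivity
    · have hne : ee (h * α) ≠ 1 := by
        intro h1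
        obtain ⟨n, hn⟩ := Complex.exp_eq_one_iff.1 h1
        have h2 : (2 * π * I : ℂ) ≠ 0 := by simp [Real.pi_ne_zero]
        have h3 : ((h * α : ℝ) : ℂ) = n := mul_left_cancel₀ h2 (by rw [hn]; ring)
        exact (hα.intCast_mul hh).ne_int n (by exact_mod_cast h3)
      have hpow : ∀ n : ℕ, ee (h * (n * α)) = ee (h * α) ^ n := by
        intro n; unfold ee; rw [← Complex.exp_nat_mul]; congr 1; push_cast; ring
      have hpos : 0 < ‖ee (h * α) - 1‖ := norm_pos_iff.2 (sub_ne_zero.2 hne)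
      filter_upwards [(tendsto_natCast_atTop_atTop (R := ℝ)).eventually_ge_atTop
        (2 / ‖ee (h * α) - 1‖ / ε)] with N hN
      rw [disc_char hh]
      simp only [hpow]
      rw [geom_sum_eq hne, norm_div]
      rw [div_le_iff₀ hε] at hN
      rw [mul_comm ε]
      refine le_trans ?_ hN
      gcongr
      refine (norm_sub_le _ _).trans ?_
      rw [norm_pow, norm_ee]; norm_num
  · intro f g hf hg h1 h2 ε hε
    filter_upwards [h1 (ε / 2) (by positivity), h2 (ε / 2) (by positivity)] with N a b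
    rw [disc_add hf hg]
    refine (norm_add_le _ _).trans ?_
    linarith
  · intro c f _ h1 ε hε
    filter_upwards [h1 (ε / (‖c‖ + 1)) (by positivity)] with N a
    rw [disc_smul, norm_mul]
    calc ‖c‖ * ‖disc f (fun n => n * α) N‖ ≤ (‖c‖ + 1) * (ε / (‖c‖ + 1) * N) := by
          gcongr; linarith
      _ = ε * N := by field_simp
  · intro g hg h ε hε
    obtain ⟨P, hP, h1, h2⟩ := h (ε / 4) (by positivity)
    filter_upwards [h1 (ε / 2) (by positivity)] with N a
    have := norm_disc_le hg hP h2 (fun n => n * α) N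
    linarith

/-- A continuous periodic majorant of `F ∘ fract` with almost the same integral. -/
lemma exists_majorant {F : ℝ → ℝ} (hF : Continuous F) (h0 : ∀ t, 0 ≤ F t) (h1 : ∀ t, F t ≤ 1)
    {ε : ℝ} (hε : 0 < ε) : ∃ G : ℝ → ℝ, Continuous G ∧ Function.Periodic G 1 ∧
      (∀ t, F (Int.fract t) ≤ G t) ∧ ∫ t in (0 : ℝ)..1, G t ≤ (∫ t in (0 : ℝ)..1, F t) + ε := by
  obtain ⟨m, hm⟩ := exists_nat_gt (2 / ε)
  set b : ℝ → ℝ := fun θ => θ ^ (m + 1) + (1 - θ) ^ (m + 1) with hb
  set φ : ℝ → ℝ := fun θ => F θ + (1 - F θ) * b θ with hφ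
  have hφc : Continuous φ := by simp only [hφ, hb]; fun_prop
  have hb0 : ∀ θ ∈ Set.Icc (0 : ℝ) 1, 0 ≤ b θ := fun θ hθ => by
    have := hθ.1
    have : 0 ≤ 1 - θ := by linarith [hθ.2]
    simp only [hb]; positivity
  refine ⟨φ ∘ Int.fract, hφc.continuousOn.comp_fract'' (by simp [hφ, hb]), fun t => by simp,
    fun t => ?_, ?_⟩
  · have := hb0 (Int.fract t) ⟨Int.fract_nonneg t, (Int.fract_lt_one t).le⟩
    have := mul_nonneg (sub_nonneg.2 (h1 (Int.fract t))) this
    simp only [Function.comp, hφ]; linarith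
  · have e1 : ∫ t in (0 : ℝ)..1, (φ ∘ Int.fract) t = ∫ t in (0 : ℝ)..1, φ t := by
      refine intervalIntegral.integral_congr_Ioo_of_le zero_le_one fun t ht => ?_
      simp only [Function.comp]
      rw [Int.fract_eq_self.2 ⟨ht.1.le, ht.2⟩]
    have hbc : Continuous b := by simp only [hb]; fun_prop
    have e2 : ∫ t in (0 : ℝ)..1, φ t ≤ ∫ t in (0 : ℝ)..1, (F t + b t) := by
      refine intervalIntegral.integral_mono_on zero_le_one (hφc.intervalIntegrable _ _)
        ((hF.add hbc).intervalIntegrable _ _) fun t ht => ?_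
      have := mul_nonneg (h0 t) (hb0 t ht)
      simp only [hφ]; nlinarith
    have e3 : ∫ t in (0 : ℝ)..1, b t = 2 / (m + 2) := by
      simp only [hb]
      rw [intervalIntegral.integral_add (by apply Continuous.intervalIntegrable; fun_prop)
        (by apply Continuous.intervalIntegrable; fun_prop),
        intervalIntegral.integral_comp_sub_left (fun t : ℝ => t ^ (m + 1)) 1]
      simp only [sub_self, sub_zero, integral_pow]
      push_cast
      simp only [one_pow, ne_eq, Nat.add_eq_zero_iff, one_ne_zero, and_false, not_false_eq_true,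
        zero_pow, sub_zero]
      field_simp
      ring
    rw [e1]
    refine e2.trans ?_
    rw [intervalIntegral.integral_add (hF.intervalIntegrable _ _) (hbc.intervalIntegrable _ _), e3]
    have : 2 / ((m : ℝ) + 2) ≤ ε := by
      rw [div_le_iff₀ (by positivity)]
      rw [div_lt_iff₀ hε] at hm
      nlinarith
    linarith

lemma sum_le_of_disc {G : ℝ → ℝ} (a : ℕ → ℝ) (N : ℕ) :
    ∑ n ∈ range N, G (a n) ≤ N * (∫ t in (0 : ℝ)..1, G t) + ‖disc (fun t => (G t : ℂ)) a N‖ := by
  have : disc (fun t => (G t : ℂ)) a N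
      = ((∑ n ∈ range N, G (a n) - N * (∫ t in (0 : ℝ)..1, G t) : ℝ) : ℂ) := by
    unfold disc
    rw [intervalIntegral.integral_ofReal]; push_cast; rfl
  rw [this, Complex.norm_real, Real.norm_eq_abs]
  linarith [le_abs_self (∑ n ∈ range N, G (a n) - N * (∫ t in (0 : ℝ)..1, G t))]

end

end Pool.Agent.P.MP_3eba60_lc
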