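import Mathlib

namespace Pool.Agent.P.MP_3eba60_lc

open MeasureTheory

noncomputable section

/-- Densities in base `b`: positive reals with sum one. -/
def IsDensity {b : ℕ} (p : Fin b → ℝ) : Prop := (∀ d, 0 < p d) ∧ ∑ d, p d = 1

/-- The Bernoulli product measure giving digit `d` probability `p d`. -/
def bernoulli {b : ℕ} (p : Fin b → ℝ) : Measure (ℕ → Fin b) :=
  Measure.infinitePi fun _ : ℕ => ∑ d : Fin b, ENNReal.ofReal (p d) • Measure.dirac d

/-- Martin-Lof randomness for `μ` relative to the oracles in `O`.  A test is a partial function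
`f`, recursive in `O`; its `n`-th open set is generated by the strings `σ` with `f (n, σ)`
defined. -/
def IsMartinLofRandom {b : ℕ} (O : Set (ℕ →. ℕ)) (μ : Measure (ℕ → Fin b)) (ω : ℕ → Fin b) :
    Prop :=
  ∀ f : ℕ × List (Fin b) →. ℕ, RecursiveIn O f →
    (∀ n : ℕ, μ {ξ | ∃ l : ℕ, (f (n, List.ofFn fun i : Fin l => ξ i)).Dom} ≤ (1 / 2) ^ n) →
    ∃ n : ℕ, ¬ ∃ l : ℕ, (f (n, List.ofFn fun i : Fin l => ω i)).Dom

/-- `x` is biased normal in base `b` with respect to `q`. -/
def IsBiasedNormal (b : ℕ) [NeZero b] (q : Fin b → ℝ) (x : ℝ) : Prop :=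
  ∀ r : ℕ, 1 ≤ r → ∀ v : Fin r → Fin b,
    Filter.Tendsto
      (fun n : ℕ => (((Finset.range n).filter
        fun i => ∀ j : Fin r, Real.digits x b (i + j) = v j).card : ℝ) / n)
      Filter.atTop (nhds (∏ j, q (v j)))

end

end Pool.Agent.P.MP_3eba60_lc
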