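import Pool.Agent.P.MP_3eba60_lc.Circle
import Pool.Agent.P.MP_3eba60_lc.Defs

/-!
The Fourier transform of the Bernoulli measure.
-/

namespace Pool.Agent.P.MP_3eba60_lc

open Complex Real MeasureTheory Filter Topology Finset ProbabilityTheory

noncomputable section

variable {s : ℕ} {p : Fin s → ℝ}

/-- The one-digit law. -/
def law (p : Fin s → ℝ) : Measure (Fin s) := ∑ d : Fin s, ENNReal.ofReal (p d) • Measure.dirac d

lemma law_prob (hp : IsDensity p) : IsProbabilityMeasure (law p) := by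
  constructor
  unfold law
  simp only [Measure.coe_finsetSum, Measure.coe_smul, Finset.sum_apply, Pi.smul_apply,
    measure_univ, smul_eq_mul, mul_one]
  rw [← ENNReal.ofReal_sum_of_nonneg fun d _ => (hp.1 d).le, hp.2, ENNReal.ofReal_one]

lemma bernoulli_eq : bernoulli p = Measure.infinitePi fun _ : ℕ => law p := rfl

lemma bernoulli_prob (hp : IsDensity p) : IsProbabilityMeasure (bernoulli p) := by
  have := law_prob hp
  rw [bernoulli_eq]; infer_instance

lemma integrable_of_continuous {E : Type*} [NormedAddCommGroup E] (hp : IsDensity p)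
    {f : (ℕ → Fin s) → E} (hf : Continuous f) : Integrable f (bernoulli p) := by
  have := bernoulli_prob hp
  exact hf.integrable_of_hasCompactSupport (HasCompactSupport.of_compactSpace f)

lemma integral_shift (hp : IsDensity p) (L : ℕ) {Ψ : (ℕ → Fin s) → ℂ} (hΨ : Continuous Ψ) :
    ∫ ω, Ψ (fun i => ω (i + L)) ∂bernoulli p = ∫ ω, Ψ ω ∂bernoulli p := by
  have := law_prob hp
  have h := Measure.map_infinitePi_infinitePi_of_inj (P := fun _ : ℕ => law p)
    (f := fun i : ℕ => i + L) (add_left_injective L)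
  rw [← bernoulli_eq] at h
  conv_rhs => rw [← h]
  rw [integral_map (Measurable.aemeasurable (by fun_prop)) hΨ.aestronglyMeasurable]

lemma integral_indep [NeZero s] (hp : IsDensity p) (L : ℕ) {Φ Ψ : (ℕ → Fin s) → ℂ}
    (hΦ : ∀ ω ω' : ℕ → Fin s, (∀ i < L, ω i = ω' i) → Φ ω = Φ ω') (hΨ : Continuous Ψ) :
    ∫ ω, Φ ω * Ψ (fun i => ω (i + L)) ∂bernoulli p
      = (∫ ω, Φ ω ∂bernoulli p) * ∫ ω, Ψ ω ∂bernoulli p := by
  have := law_prob hp
  have hi : iIndepFun (fun (i : ℕ) (ω : ℕ → Fin s) => ω i) (bernoulli p) :=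
    iIndepFun_infinitePi (P := fun _ : ℕ => law p) (X := fun _ ω => ω) (by fun_prop)
  have hind := indep_iSup_of_disjoint (fun i => (measurable_pi_apply i).comap_le) hi.iIndep
    (S := Set.Iio L) (T := Set.Ici L) (Set.Iio_disjoint_Ici le_rfl)
  have hXY : IndepFun (fun (ω : ℕ → Fin s) (i : Fin L) => ω i)
      (fun (ω : ℕ → Fin s) (i : ℕ) => ω (i + L)) (bernoulli p) := by
    rw [IndepFun_iff_Indep]
    refine indep_of_indep_of_le_right (indep_of_indep_of_le_left hind ?_) ?_
    · refine Measurable.comap_le (@measurable_pi_lambda _ _ _ (_) _ _ fun i => ?_)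
      exact Measurable.of_comap_le (le_iSup₂_of_le (i : ℕ) i.2 le_rfl)
    · refine Measurable.comap_le (@measurable_pi_lambda _ _ _ (_) _ _ fun i => ?_)
      exact Measurable.of_comap_le (le_iSup₂_of_le (i + L) (Nat.le_add_left L i) le_rfl)
  set Φ' : (Fin L → Fin s) → ℂ := fun v => Φ fun i => if h : i < L then v ⟨i, h⟩ else 0 with hΦ'
  have hΦeq : ∀ ω : ℕ → Fin s, Φ ω = Φ' fun i : Fin L => ω i := fun ω =>
    hΦ _ _ fun i hi => by simp [hi]
  have := hXY.integral_fun_comp_mul_comp (f := Φ') (g := Ψ)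
    (Measurable.aemeasurable (by fun_prop)) (Measurable.aemeasurable (by fun_prop))
    (measurable_of_finite Φ').aestronglyMeasurable hΨ.aestronglyMeasurable
  simp only [← hΦeq] at this
  rw [this, integral_shift hp L hΨ]

/-- The Fourier transform of the law of `ofDigits`. -/
def ft (p : Fin s → ℝ) (ξ : ℝ) : ℂ := ∫ ω, ee (ξ * Real.ofDigits ω) ∂bernoulli p

/-- The truncation to the first `L` digits. -/
def trunc (L : ℕ) (ω : ℕ → Fin s) : ℝ := ∑ i ∈ range L, Real.ofDigitsTerm ω i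

lemma trunc_congr {L : ℕ} {ω ω' : ℕ → Fin s} (h : ∀ i < L, ω i = ω' i) :
    trunc L ω = trunc L ω' :=
  sum_congr rfl fun i hi => by simp [Real.ofDigitsTerm, h i (mem_range.1 hi)]

@[fun_prop]
lemma continuous_trunc (L : ℕ) : Continuous (trunc (s := s) L) := by
  unfold trunc Real.ofDigitsTerm
  refine continuous_finsetSum _ fun i _ => Continuous.mul ?_ continuous_const
  exact (continuous_of_discreteTopology (f := fun d : Fin s => ((d : ℕ) : ℝ))).comp
    (continuous_apply i)

lemma sub_trunc (L : ℕ) (ω : ℕ → Fin s) :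
    0 ≤ Real.ofDigits ω - trunc L ω ∧ Real.ofDigits ω - trunc L ω ≤ ((s : ℝ) ^ L)⁻¹ := by
  rw [Real.ofDigits_eq_sum_add_ofDigits ω L]
  unfold trunc
  rw [add_sub_cancel_left]
  exact ⟨mul_nonneg (by positivity) (Real.ofDigits_nonneg _),
    mul_le_of_le_one_right (by positivity) (Real.ofDigits_le_one _)⟩

lemma continuous_ee_ofDigits (ξ : ℝ) : Continuous fun ω : ℕ → Fin s => ee (ξ * Real.ofDigits ω) :=
  continuous_ee.comp (continuous_const.mul Real.continuous_ofDigits)

lemma integral_mul_ee [NeZero s] (hp : IsDensity p) (L : ℕ) {Φ : (ℕ → Fin s) → ℂ}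
    (hΦ : ∀ ω ω' : ℕ → Fin s, (∀ i < L, ω i = ω' i) → Φ ω = Φ ω') (ξ : ℝ) :
    ∫ ω, Φ ω * ee (ξ * Real.ofDigits ω) ∂bernoulli p
      = (∫ ω, Φ ω * ee (ξ * trunc L ω) ∂bernoulli p) * ft p (ξ * ((s : ℝ) ^ L)⁻¹) := by
  have := integral_indep hp L (Φ := fun ω => Φ ω * ee (ξ * trunc L ω))
    (fun ω ω' h => by rw [hΦ ω ω' h, trunc_congr h])
    (continuous_ee_ofDigits (ξ * ((s : ℝ) ^ L)⁻¹))
  rw [ft, ← this]
  congr 1; ext ω
  rw [mul_assoc, ← ee_add, Real.ofDigits_eq_sum_add_ofDigits ω L]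
  unfold trunc
  congr 2; ring

lemma norm_ft_le (hp : IsDensity p) (ξ : ℝ) : ‖ft p ξ‖ ≤ 1 := by
  have := bernoulli_prob hp
  simpa [ft] using norm_integral_le_of_norm_le_const (μ := bernoulli p) (C := 1)
    (f := fun ω => ee (ξ * Real.ofDigits ω)) (Eventually.of_forall fun ω => (norm_ee _).le)

lemma continuous_ft (hp : IsDensity p) : Continuous (ft p) := by
  have := bernoulli_prob hp
  refine continuous_of_dominated (bound := fun _ => 1)
    (fun ξ => (continuous_ee_ofDigits ξ).aestronglyMeasurable)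
    (fun ξ => Eventually.of_forall fun ω => (norm_ee _).le) (integrable_const _)
    (Eventually.of_forall fun ω => by fun_prop)

/-- The symbol `∑ p d e(t d)`. -/
def sym (p : Fin s → ℝ) (t : ℝ) : ℂ := ∑ d : Fin s, p d * ee (t * (d : ℕ))

lemma ft_mul [NeZero s] (hp : IsDensity p) (t : ℝ) : ft p (t * s) = sym p t * ft p t := by
  have hs : (s : ℝ) ≠ 0 := by exact_mod_cast NeZero.ne s
  have := law_prob hp
  have h := integral_mul_ee hp 1 (Φ := fun _ => 1) (fun _ _ _ => rfl) (t * s)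
  simp only [one_mul, pow_one] at h
  rw [mul_assoc t, mul_inv_cancel₀ hs, mul_one] at h
  rw [ft, h]
  congr 1
  have h1 : ∀ ω : ℕ → Fin s, ee (t * s * trunc 1 ω) = (fun d : Fin s => ee (t * (d : ℕ))) (ω 0) := by
    intro ω
    simp only [trunc, range_one, sum_singleton, Real.ofDigitsTerm, zero_add, pow_one]
    congr 1; field_simp
  simp only [h1]
  rw [← integral_map (φ := fun ω : ℕ → Fin s => ω 0) (f := fun d : Fin s => ee (t * (d : ℕ)))
    (Measurable.aemeasurable (by fun_prop)) (measurable_of_finite _).aestronglyMeasurable,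
    bernoulli_eq, Measure.infinitePi_map_eval, law, integral_finsetSum_measure fun d _ =>
      (Integrable.of_finite (μ := Measure.dirac d)).smul_measure ENNReal.ofReal_ne_top]
  refine sum_congr rfl fun d _ => ?_
  rw [integral_smul_measure, integral_dirac, ENNReal.toReal_ofReal (hp.1 d).le]
  simp

lemma norm_sym_le (hp : IsDensity p) (t : ℝ) : ‖sym p t‖ ≤ 1 := by
  refine (norm_sum_le _ _).trans (le_of_eq ?_)
  rw [← hp.2]
  refine sum_congr rfl fun d _ => ?_
  rw [norm_mul, norm_ee, mul_one, Complex.norm_real, Real.norm_of_nonneg (hp.1 d).le]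

lemma exists_kappa (hs : 2 ≤ s) (hp : IsDensity p) {δ : ℝ} (hδ : 0 < δ) :
    ∃ κ < 1, ∀ t : ℝ, δ ≤ |t - round t| → ‖sym p t‖ ≤ κ := by
  set d0 : Fin s := ⟨0, by omega⟩
  set d1 : Fin s := ⟨1, by omega⟩
  have hne : d0 ≠ d1 := by simp [d0, d1]
  have h0 := hp.1 d0
  have h1 := hp.1 d1
  have hsum : p d0 + p d1 + ∑ d ∈ (univ.erase d0).erase d1, p d = 1 := by
    rw [← hp.2, ← add_sum_erase _ _ (mem_univ d0),
      ← add_sum_erase _ _ (mem_erase.2 ⟨hne.symm, mem_univ d1⟩)]; ring
  have hrest : 0 ≤ ∑ d ∈ (univ.erase d0).erase d1, p d := sum_nonneg fun d _ => (hp.1 d).le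
  refine ⟨1 - 8 * p d0 * p d1 * δ ^ 2, by have : 0 < 8 * p d0 * p d1 * δ ^ 2 := by positivity
                                          linarith, fun t ht => ?_⟩
  have hsplit : sym p t = (p d0 + p d1 * ee t)
      + ∑ d ∈ (univ.erase d0).erase d1, p d * ee (t * (d : ℕ)) := by
    unfold sym
    rw [← add_sum_erase _ _ (mem_univ d0),
      ← add_sum_erase _ _ (mem_erase.2 ⟨hne.symm, mem_univ d1⟩)]
    simp [d0, d1, ee_zero, add_assoc]
  have hn2 : ‖∑ d ∈ (univ.erase d0).erase d1, p d * ee (t * (d : ℕ))‖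
      ≤ ∑ d ∈ (univ.erase d0).erase d1, p d := by
    refine (norm_sum_le _ _).trans (le_of_eq (sum_congr rfl fun d _ => ?_))
    rw [norm_mul, norm_ee, mul_one, Complex.norm_real, Real.norm_of_nonneg (hp.1 d).le]
  have hcos : Real.cos (2 * π * t) ≤ 1 - 8 * δ ^ 2 := by
    have e1 : Real.cos (2 * π * t) = Real.cos (2 * π * (t - round t)) := by
      rw [← Real.cos_add_int_mul_two_pi (2 * π * (t - round t)) (round t)]; congr 1; ring
    have e2 := abs_sub_round t
    have e3 := Real.cos_le_one_sub_mul_cos_sq (x := 2 * π * (t - round t)) (by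
      rw [abs_mul, abs_of_pos (by positivity : (0 : ℝ) < 2 * π)]; nlinarith [Real.pi_pos])
    have e4 : 2 / π ^ 2 * (2 * π * (t - round t)) ^ 2 = 8 * |t - round t| ^ 2 := by
      rw [sq_abs]; field_simp; ring
    have e5 : δ ^ 2 ≤ |t - round t| ^ 2 := by gcongr
    rw [e1]; linarith
  have hsq : ‖(p d0 : ℂ) + p d1 * ee t‖ ^ 2
      = p d0 ^ 2 + p d1 ^ 2 + 2 * p d0 * p d1 * Real.cos (2 * π * t) := by
    have : ee t = Real.cos (2 * π * t) + Real.sin (2 * π * t) * I := by
      unfold ee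
      rw [show 2 * π * I * t = ((2 * π * t : ℝ) : ℂ) * I by push_cast; ring, Complex.exp_mul_I]
      push_cast; rfl
    rw [this, Complex.sq_norm, Complex.normSq_apply]
    simp only [add_re, ofReal_re, mul_re, ofReal_im, I_re, mul_zero, I_im, mul_one, sub_self,
      add_zero, add_im, mul_im, zero_add, zero_mul, sub_zero]
    linear_combination p d1 ^ 2 * Real.sin_sq_add_cos_sq (2 * π * t)
  have hn1 : ‖(p d0 : ℂ) + p d1 * ee t‖ ≤ p d0 + p d1 - 8 * p d0 * p d1 * δ ^ 2 := by
    set x := ‖(p d0 : ℂ) + p d1 * ee t‖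
    have hx : 0 ≤ x := norm_nonneg _
    have hA : p d0 + p d1 ≤ 1 := by linarith
    have hc : 0 < p d0 * p d1 * δ ^ 2 := by positivity
    have h2 : x ^ 2 ≤ (p d0 + p d1) ^ 2 - 16 * (p d0 * p d1 * δ ^ 2) := by
      rw [hsq]; nlinarith [mul_pos h0 h1]
    have h3 : x ≤ p d0 + p d1 := by
      by_contra hcon
      push Not at hcon
      nlinarith
    nlinarith
  rw [hsplit]
  refine (norm_add_le _ _).trans ?_
  linarith

lemma frequently_far (hs : 2 ≤ s) {u : ℝ} (hu : Irrational u) :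
    ∃ᶠ k in atTop, 1 / (2 * (s : ℝ)) ≤ |u * s ^ k - round (u * s ^ k)| := by
  by_contra hcon
  rw [not_frequently] at hcon
  obtain ⟨K, hK⟩ := eventually_atTop.1 hcon
  have hs' : (2 : ℝ) ≤ s := by exact_mod_cast hs
  set d : ℕ → ℝ := fun k => u * s ^ k - round (u * s ^ k) with hd
  have hstep : ∀ k ≥ K, d (k + 1) = s * d k := by
    intro k hk
    have h1 : |d k| < 1 / (2 * (s : ℝ)) := not_le.1 (hK k hk)
    have h2 : |s * d k| < 1 / 2 := by
      rw [abs_mul, abs_of_pos (by linarith : (0 : ℝ) < s)]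
      rw [lt_div_iff₀ (by positivity)] at h1
      linarith
    have h3 : u * s ^ (k + 1) = s * d k + ((s * round (u * s ^ k) : ℤ) : ℝ) := by
      simp only [hd]; push_cast; ring
    have h4 : round (u * s ^ (k + 1)) = s * round (u * s ^ k) := by
      rw [h3, round_add_intCast, round_eq_zero_iff.2 ⟨(abs_lt.1 h2).1.le.trans' (by norm_num),
        (abs_lt.1 h2).2⟩, zero_add]
    simp only [hd]; rw [h4]; push_cast; ring
  have hpow : ∀ j : ℕ, d (K + j) = s ^ j * d K := by
    intro j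
    induction j with
    | zero => simp
    | succ j ih => rw [← add_assoc, hstep _ (by omega), ih]; ring
  have hdK : d K ≠ 0 := by
    intro h0
    have h1 : Irrational (u * ((s ^ K : ℕ) : ℝ)) := hu.mul_natCast (by positivity)
    apply h1.ne_int (round (u * s ^ K))
    push_cast
    simp only [hd] at h0; linarith
  obtain ⟨j, hj⟩ := pow_unbounded_of_one_lt (1 / |d K|) (by linarith : (1 : ℝ) < s)
  have h1 := abs_sub_round (u * s ^ (K + j))
  have h2 := hpow j
  simp only [hd] at h2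
  rw [h2, abs_mul, abs_of_pos (by positivity : (0 : ℝ) < s ^ j)] at h1
  rw [div_lt_iff₀ (abs_pos.2 hdK)] at hj
  simp only [hd] at hj
  linarith

lemma tendsto_ft [NeZero s] (hs : 2 ≤ s) (hp : IsDensity p) {u : ℝ} (hu : Irrational u) :
    Tendsto (fun k : ℕ => ‖ft p (u * s ^ k)‖) atTop (𝓝 0) := by
  obtain ⟨κ, hκ, hsym⟩ := exists_kappa hs hp (δ := 1 / (2 * (s : ℝ))) (by
    have : (0 : ℝ) < s := by exact_mod_cast (by omega : 0 < s)
    positivity)
  set a : ℕ → ℝ := fun k => ‖ft p (u * s ^ k)‖ with ha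
  have hrec : ∀ k, a (k + 1) = ‖sym p (u * s ^ k)‖ * a k := by
    intro k; simp only [ha]; rw [pow_succ, ← mul_assoc, ft_mul hp, norm_mul]
  have hanti : Antitone a := antitone_nat_of_succ_le fun k => by
    rw [hrec]; exact mul_le_of_le_one_left (norm_nonneg _) (norm_sym_le hp _)
  have hbdd : BddBelow (Set.range a) := ⟨0, by rintro _ ⟨k, rfl⟩; exact norm_nonneg _⟩
  have hlim := tendsto_atTop_ciInf hanti hbdd
  set A := ⨅ k, a k
  have hA0 : 0 ≤ A := le_ciInf fun k => norm_nonneg _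
  have hle : A ≤ κ * A := by
    refine le_of_tendsto_of_tendsto_of_frequently (f := fun k => a (k + 1)) (g := fun k => κ * a k)
      (hlim.comp (tendsto_add_atTop_nat 1)) (hlim.const_mul κ) ?_
    refine (frequently_far hs hu).mono fun k hk => ?_
    rw [hrec]
    exact mul_le_mul_of_nonneg_right (hsym _ hk) (norm_nonneg _)
  have : A = 0 := by nlinarith
  rwa [this] at hlim

lemma tendsto_integral_ft [NeZero s] (hs : 2 ≤ s) (hp : IsDensity p) {h : ℤ} (hh : h ≠ 0) :
    Tendsto (fun k : ℕ => ∫ θ in (0 : ℝ)..1, ‖ft p (h * (s : ℝ) ^ θ * s ^ k)‖) atTop (𝓝 0) := by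
  have hs' : (1 : ℝ) < s := by exact_mod_cast hs
  have hc := continuous_ft hp
  have hcount : {θ : ℝ | ¬ Irrational (h * (s : ℝ) ^ θ)}.Countable := by
    have : {θ : ℝ | ¬ Irrational (h * (s : ℝ) ^ θ)}
        = (fun θ : ℝ => h * (s : ℝ) ^ θ) ⁻¹' Set.range ((↑) : ℚ → ℝ) := by
      ext θ; simp [Irrational]
    rw [this]
    refine (Set.countable_range _).preimage fun a b hab => ?_
    have h1 : (s : ℝ) ^ a = (s : ℝ) ^ b := mul_left_cancel₀ (by exact_mod_cast hh) hab
    exact (Real.rpow_right_inj (by linarith) (by linarith)).1 h1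
  have := intervalIntegral.tendsto_integral_filter_of_dominated_convergence (μ := volume)
    (a := 0) (b := 1) (l := atTop) (f := fun _ => (0 : ℝ))
    (F := fun (k : ℕ) (θ : ℝ) => ‖ft p (h * (s : ℝ) ^ θ * s ^ k)‖) (fun _ => 1)
    (Eventually.of_forall fun k => Continuous.aestronglyMeasurable (by
      have : Continuous fun θ : ℝ => (s : ℝ) ^ θ := continuous_const_rpow (by linarith)
      fun_prop))
    (Eventually.of_forall fun k => Eventually.of_forall fun θ _ => by
      rw [norm_norm]; exact norm_ft_le hp _)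
    intervalIntegrable_const
    (by
      filter_upwards [hcount.ae_notMem volume] with θ hθ _
      exact tendsto_ft hs hp (not_not.1 hθ))
  simpa using this

end

end Pool.Agent.P.MP_3eba60_lc
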