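import Pool.Agent.P.MP_3eba60_lc.Lln
import Pool.Agent.P.MP_3eba60_lc.Box

/-!
Frequencies of patterns of base `c` digits along progressions; multiplicatively dependent bases.
-/

namespace Pool.Agent.P.MP_3eba60_lc

open Real MeasureTheory Filter Topology Finset ProbabilityTheory

variable {c m b : ℕ} {p : Fin b → ℝ}

open Classical in
lemma law_apply (hp : IsDensity p) (P : Fin b → Prop) :
    law p {d | P d} = ENNReal.ofReal (∑ d, if P d then p d else 0) := by
  unfold law
  rw [ENNReal.ofReal_sum_of_nonneg fun d _ => by split_ifs; exacts [(hp.1 d).le, le_rfl]]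
  simp only [Measure.coe_finsetSum, Measure.coe_smul, Finset.sum_apply, Pi.smul_apply,
    smul_eq_mul]
  refine sum_congr rfl fun d _ => ?_
  rw [Measure.dirac_apply' _ MeasurableSet.of_discrete]
  by_cases h : P d <;> simp [h]

lemma wt_nonneg (hp : IsDensity p) (B : ℕ → ℕ → Prop) (L j k : ℕ) : 0 ≤ wt c m p B L j k := by
  unfold wt
  exact sum_nonneg fun d _ => by split_ifs; exacts [(hp.1 d).le, le_rfl]

lemma prob_box (hp : IsDensity p) (B : ℕ → ℕ → Prop) (L j K a : ℕ) :
    (bernoulli p).real {ξ | ∀ k : Fin K, Box c m B L j k (ξ (a + k))}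
      = ∏ k ∈ range K, wt c m p B L j k := by
  have := law_prob hp
  have h1 : {ξ : ℕ → Fin b | ∀ k : Fin K, Box c m B L j k (ξ (a + k))}
      = Set.pi (Ico a (a + K) : Finset ℕ) fun z => {d : Fin b | Box c m B L j (z - a) d} := by
    ext ξ
    simp only [Set.mem_ofPred_eq, Set.mem_pi, mem_coe, mem_Ico]
    constructor
    · intro H z hz
      have := H ⟨z - a, by omega⟩
      simp only at this
      rwa [show a + (z - a) = z by omega] at this
    · intro H k
      have := H (a + k) ⟨by omega, by omega⟩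
      rwa [Nat.add_sub_cancel_left] at this
  rw [h1, Measure.real, bernoulli_eq,
    Measure.infinitePi_pi _ fun _ _ => MeasurableSet.of_discrete, prod_Ico_eq_prod_range,
    ENNReal.toReal_prod, Nat.add_sub_cancel_left]
  refine prod_congr rfl fun k _ => ?_
  rw [law_apply hp, Nat.add_sub_cancel_left]
  exact ENNReal.toReal_ofReal (wt_nonneg hp B L j k)

lemma pattern_iff (hm : 0 < m) {ω : ℕ → Fin b} {y : ℕ → ℕ}
    (hy : ∀ k, ∀ u < m, y (m * k + u) = dg c m (ω k) u) (B : ℕ → ℕ → Prop) {L j K : ℕ}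
    (h : j + L ≤ m * K) (s : ℕ) :
    (∀ t < L, B t (y (m * s + j + t))) ↔ ∀ k : Fin K, Box c m B L j k (ω (s + k)) := by
  constructor
  · intro H k t ht u hu e
    rw [← hy _ _ hu, show m * (s + k) + u = m * s + j + t by rw [mul_add]; omega]
    exact H t ht
  · intro H t ht
    have h1 := Nat.div_add_mod (j + t) m
    have h2 : (j + t) / m < K := (Nat.div_lt_iff_lt_mul hm).2 (by rw [mul_comm]; omega)
    have h3 := H ⟨_, h2⟩ t ht _ (Nat.mod_lt (j + t) hm) h1.symm
    rwa [← hy _ _ (Nat.mod_lt _ hm),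
      show m * (s + (j + t) / m) + (j + t) % m = m * s + j + t by rw [mul_add]; omega] at h3

lemma digits_dg [NeZero c] [NeZero b] (hb : b = c ^ m) (x : ℝ) (k u : ℕ) (hu : u < m) :
    (Real.digits x c (m * k + u) : ℕ) = dg c m (Real.digits x b k) u := by
  subst hb
  have hc : (c : ℝ) ≠ 0 := by exact_mod_cast NeZero.ne c
  unfold Real.digits dg
  simp only [Fin.val_ofNat]
  obtain ⟨e, rfl⟩ : ∃ e, m = e + (u + 1) := ⟨m - 1 - u, by omega⟩
  rw [show e + (u + 1) - 1 - u = e by omega, pow_add c e, Nat.mod_mul_right_div_self,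
    Nat.mod_mod_of_dvd _ (dvd_pow_self c (by omega)), ← Nat.floor_div_natCast]
  congr 2
  push_cast
  field_simp
  ring

open Classical in
lemma freq_random [NeZero b] (hp : IsDensity p) (hm : 0 < m) {O : Set (ℕ →. ℕ)} {ω : ℕ → Fin b}
    (hω : IsMartinLofRandom O (bernoulli p) ω) {y : ℕ → ℕ}
    (hy : ∀ k, ∀ u < m, y (m * k + u) = dg c m (ω k) u) {n : ℕ} (hn : 0 < n)
    (B : ℕ → ℕ → Prop) {L K : ℕ} (hK : L + 1 ≤ K) :
    Tendsto (fun N : ℕ => (((range N).filter fun i => ∀ t < L, B t (y (n * i + t))).card : ℝ) / N)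
      atTop (𝓝 ((∑ ρ ∈ range (m * K), Wt c m p B L (n * ρ % m)) / (m * K : ℕ))) := by
  have := bernoulli_prob hp
  have hM : 0 < m * K := Nat.mul_pos hm (by omega)
  have hM' : (0 : ℝ) < (m * K : ℕ) := by exact_mod_cast hM
  have hKT : K ≤ n * K := Nat.le_mul_of_pos_left _ hn
  have hj : ∀ ρ, n * ρ % m + L ≤ m * K := by
    intro ρ
    have h1 := Nat.mod_lt (n * ρ) hm
    have h2 := Nat.mul_le_mul_left m hK
    have h3 : L ≤ m * L := Nat.le_mul_of_pos_left _ hm
    rw [mul_add] at h2
    omega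
  have hiff : ∀ ρ i, (∀ t < L, B t (y (n * (m * K * i + ρ) + t))) ↔
      ∀ k : Fin K, Box c m B L (n * ρ % m) k (ω (n * ρ / m + n * K * i + k)) := by
    intro ρ i
    rw [← pattern_iff hm hy B (hj ρ), show m * (n * ρ / m + n * K * i) + n * ρ % m
      = n * (m * K * i + ρ) by
        have := Nat.div_add_mod (n * ρ) m
        linear_combination this]
  have hprob : ∀ ρ i, (bernoulli p).real {ξ | ∀ k : Fin K,
      Box c m B L (n * ρ % m) k (ξ (n * ρ / m + n * K * i + k))} = Wt c m p B L (n * ρ % m) :=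
    fun ρ i => by rw [prob_box hp, Wt_eq hp hm (hj ρ)]
  have h0 : ∀ ρ, 0 ≤ Wt c m p B L (n * ρ % m) := fun ρ => hprob ρ 0 ▸ measureReal_nonneg
  have h1 : ∀ ρ, Wt c m p B L (n * ρ % m) ≤ 1 := fun ρ => hprob ρ 0 ▸ measureReal_le_one
  refine tendsto_of_two (fun ε hε => ?_) fun ε hε => ?_
  · refine upper_of_sq hM (α := fun ρ => Wt c m p B L (n * ρ % m)) (by field_simp)
      (div_nonneg (sum_nonneg fun ρ _ => h0 ρ) hM'.le) (fun ρ _ δ hδ => ?_) hε
    simp only [hiff]
    exact lln_sq hp hω hKT (n * ρ / m) (fun w => ∀ k : Fin K, Box c m B L (n * ρ % m) k (w k))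
      (hprob ρ) hδ
  · refine upper_of_sq hM (α := fun ρ => 1 - Wt c m p B L (n * ρ % m)) ?_ ?_
      (fun ρ _ δ hδ => ?_) hε
    · rw [sum_sub_distrib]
      simp only [sum_const, card_range, nsmul_eq_mul]
      field_simp
    · rw [sub_nonneg, div_le_one hM']
      exact (sum_le_card_nsmul _ _ 1 fun ρ _ => h1 ρ).trans (by simp)
    · simp only [hiff]
      refine lln_sq hp hω hKT (n * ρ / m)
        (fun w => ¬ ∀ k : Fin K, Box c m B L (n * ρ % m) k (w k)) (fun i => ?_) hδ
      rw [← hprob ρ i, ← probReal_compl_eq_one_sub (measurableSet_win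
        (fun w => ∀ k : Fin K, Box c m B L (n * ρ % m) k (w k)) (n * ρ / m + n * K * i))]
      rfl

open Classical in
lemma freq_normal [NeZero b] {x : ℝ} (hx : IsBiasedNormal b p x) (B : ℕ → ℕ → Prop)
    (L j : ℕ) {K : ℕ} (hK : 1 ≤ K) :
    Tendsto (fun N : ℕ => (((range N).filter fun i =>
      ∀ k : Fin K, Box c m B L j k (Real.digits x b (i + k))).card : ℝ) / N)
      atTop (𝓝 (∏ k ∈ range K, wt c m p B L j k)) := by
  set A : Fin K → Finset (Fin b) := fun k => univ.filter fun d => Box c m B L j k d with hA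
  have h1 : ∏ k ∈ range K, wt c m p B L j k = ∑ v ∈ Fintype.piFinset A, ∏ k, p (v k) := by
    rw [← prod_univ_sum, prod_range]
    refine prod_congr rfl fun k _ => ?_
    rw [wt, hA, sum_filter]
  rw [h1]
  refine (tendsto_finsetSum _ fun v _ => hx K hK v).congr fun N => ?_
  rw [← sum_div]
  congr 1
  rw [card_eq_sum_card_fiberwise (f := fun i (k : Fin K) => Real.digits x b (i + k))
    (t := Fintype.piFinset A)]
  · push_cast
    refine sum_congr rfl fun v hv => ?_
    congr 2
    ext i
    simp only [mem_filter, funext_iff, and_assoc, and_congr_right_iff, iff_and_self]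
    intro _ H k
    rw [H k]
    simpa [hA] using Fintype.mem_piFinset.1 hv k
  · intro i hi
    simp only [coe_filter, Set.mem_ofPred_eq] at hi
    simpa [hA] using hi.2

/-- Common powers come from a common root. -/
lemma exists_root {b b' M N : ℕ} (hb : 2 ≤ b) (hM : 0 < M) (hN : 0 < N) (h : b ^ M = b' ^ N) :
    ∃ c m n : ℕ, 2 ≤ c ∧ 0 < m ∧ 0 < n ∧ m.Coprime n ∧ b = c ^ m ∧ b' = c ^ n := by
  obtain ⟨n, m, hnm, hMe, hNe⟩ := Nat.exists_coprime M N
  have hg : 0 < Nat.gcd M N := Nat.gcd_pos_of_pos_left _ hM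
  have hn : 0 < n := Nat.pos_of_ne_zero fun e => by rw [e] at hMe; omega
  have hm : 0 < m := Nat.pos_of_ne_zero fun e => by rw [e] at hNe; omega
  have h1 : b ^ n = b' ^ m := by
    refine Nat.pow_left_injective hg.ne' ?_
    simp only [← pow_mul, ← hMe, ← hNe, h]
  have h2 : (b : ℚ) ^ n = (b' : ℚ) ^ m := by exact_mod_cast h1
  obtain ⟨z, hz1, hz2⟩ := (pow_eq_pow_iff_of_coprime hnm).1 h2
  have hden : z.den = 1 := by
    have := congrArg Rat.den hz1
    rw [Rat.den_pow, Rat.den_natCast] at this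
    exact (Nat.pow_eq_one.1 this.symm).resolve_right hm.ne'
  have hz : (z.num : ℚ) = z := Rat.coe_int_num_of_den_eq_one hden
  rw [← hz] at hz1 hz2
  have hz1' : (b : ℤ) = z.num ^ m := by exact_mod_cast hz1
  have hz2' : (b' : ℤ) = z.num ^ n := by exact_mod_cast hz2
  have e1 : b = z.num.natAbs ^ m := by simpa using congrArg Int.natAbs hz1'
  have e2 : b' = z.num.natAbs ^ n := by simpa using congrArg Int.natAbs hz2'
  refine ⟨z.num.natAbs, m, n, ?_, hm, hn, hnm.symm, e1, e2⟩
  by_contra hc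
  have : z.num.natAbs ^ m ≤ 1 ^ m := Nat.pow_le_pow_left (by omega) m
  rw [one_pow] at this
  omega

/-- The dependent case, for a given common root. -/
theorem dependent {n b' : ℕ} [NeZero b] [NeZero b'] (hc : 2 ≤ c) (hm : 0 < m) (hn : 0 < n)
    (hmn : m.Coprime n) (hb : b = c ^ m) (hb' : b' = c ^ n) (hp : IsDensity p)
    {O : Set (ℕ →. ℕ)} {x : ℝ} (hrand : IsMartinLofRandom O (bernoulli p) (Real.digits x b))
    (q : Fin b' → ℝ) :
    (IsDensity q ∧ IsBiasedNormal b' q x) ↔
      ∃ r : ℕ → ℝ, (∀ e < c, 0 < r e) ∧ ∑ e ∈ range c, r e = 1 ∧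
        (∀ d : Fin b, p d = ∏ i ∈ range m, r (d / c ^ i % c)) ∧
        ∀ e : Fin b', q e = ∏ i ∈ range n, r (e / c ^ i % c) := by
  classical
  have : NeZero c := ⟨by omega⟩
  let y : ℕ → ℕ := fun z => Real.digits x c z
  have hy : ∀ k, ∀ u < m, y (m * k + u) = dg c m (Real.digits x b k) u := digits_dg hb x
  have hy' : ∀ k, ∀ u < n, y (n * k + u) = dg c n (Real.digits x b' k) u := digits_dg hb' x
  constructor
  · rintro ⟨hq, hx⟩
    refine rigid hc hb hb' hp hq hm hn fun B L j hj =>
      phases_eq hp hq hm hn hmn (fun B L K hK => ?_) B L hj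
    have hL : 0 + L ≤ n * K := by
      have := Nat.le_mul_of_pos_left K hn
      omega
    have h1 := freq_random hp hm hrand hy hn B hK
    have h2 := freq_normal (c := c) (m := n) hx B L 0 (K := K) (by omega)
    simp only [← pattern_iff hn hy' B hL, add_zero] at h2
    have h3 := tendsto_nhds_unique h1 h2
    have hM : (0 : ℝ) < (m * K : ℕ) := by exact_mod_cast Nat.mul_pos hm (by omega : 0 < K)
    rw [Wt_eq hq hn hL, ← h3]
    field_simp
  · rintro ⟨r, hr0, hr1, hpr, hqr⟩
    subst hb hb'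
    refine ⟨⟨fun e => ?_, ?_⟩, fun l hl v => ?_⟩
    · rw [hqr]
      exact prod_pos fun i _ => hr0 _ (Nat.mod_lt _ (by omega))
    · simp only [hqr]
      rw [sum_prod_digits fun _ e => r e, hr1, prod_const_one]
    · let w : ℕ → ℕ := fun k => if h : k < l then v ⟨k, h⟩ else 0
      let V : ℕ → ℕ := fun t => dg c n (w (t / n)) (t % n)
      have hV : ∀ k, ∀ u < n, V (n * k + u) = dg c n (w k) u := by
        intro k u hu
        simp only [V]
        rw [Nat.mul_add_div hn, Nat.mul_add_mod, Nat.div_eq_of_lt hu, Nat.mod_eq_of_lt hu, add_zero]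
      have hw : ∀ k : Fin l, w k = v k := fun k => dif_pos k.2
      have h1 := freq_random hp hm hrand hy hn (fun t e => e = V t) (L := n * l) le_rfl
      have hM : (0 : ℝ) < (m * (n * l + 1) : ℕ) := by
        exact_mod_cast Nat.mul_pos hm (Nat.succ_pos _)
      simp only [Wt_prod hm hr1 hpr (V := V) fun t => Nat.mod_lt _ (by omega), sum_const,
        card_range, nsmul_eq_mul] at h1
      rw [mul_div_cancel_left₀ _ hM.ne'] at h1
      have h2 : ∀ K, ∏ t ∈ range (n * K), r (V t)
          = ∏ k ∈ range K, ∏ u ∈ range n, r (dg c n (w k) u) := by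
        intro K
        induction K with
        | zero => simp
        | succ K ih =>
          rw [mul_add, mul_one, prod_range_add, ih, prod_range_succ]
          congr 1
          exact prod_congr rfl fun u hu => by rw [hV _ _ (mem_range.1 hu)]
      have h3 : ∏ t ∈ range (n * l), r (V t) = ∏ k, q (v k) := by
        rw [h2, prod_range]
        exact prod_congr rfl fun k _ => by rw [hw, prod_dg, hqr]
      rw [h3] at h1
      refine h1.congr fun N => ?_
      congr 3
      ext i
      have h4 := pattern_iff hn hy' (fun t e => e = V t) (L := n * l) (j := 0) (K := l)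
        (by omega) i
      rw [add_zero] at h4
      simp only [mem_filter]
      refine and_congr_right fun _ => h4.trans (forall_congr' fun k => ⟨fun H => Fin.ext
        (dg_inj (Fin.is_lt _) (v k).2 fun u hu => ?_), fun H t _ u hu e => ?_⟩)
      · have := Nat.mul_le_mul_left n (Nat.succ_le_of_lt k.2)
        rw [Nat.mul_succ] at this
        exact (H (n * k + u) (by omega) u hu (by omega)).trans (by rw [hV _ _ hu, hw])
      · change _ = V t
        rw [H, show t = n * k + u by omega, hV _ _ hu, hw]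

end Pool.Agent.P.MP_3eba60_lc
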