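import Pool.Agent.P.MP_3eba60_lc.Test

/-!
A law of large numbers along arithmetic progressions for Martin-Lof random sequences.
-/

namespace Pool.Agent.P.MP_3eba60_lc

open Real MeasureTheory Filter Topology Finset ProbabilityTheory

variable {s : ℕ} {p : Fin s → ℝ}

/-- An effective Borel-Cantelli lemma. -/
lemma ml_bc {μ : Measure (ℕ → Fin s)} [IsProbabilityMeasure μ] {O : Set (ℕ →. ℕ)} {ω : ℕ → Fin s}
    (hω : IsMartinLofRandom O μ ω) {D : List (Fin s) → ℕ → Prop} (hD : PrimrecRel D) (A : ℕ)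
    {C : ℝ} (hC0 : 0 ≤ C) (hC : ∀ j : ℕ, 1 ≤ j →
      μ.real {ξ | D (List.ofFn fun i : Fin (A * (j * j)) => ξ i) j} ≤ C * ((j : ℝ) ^ 2)⁻¹) :
    ∀ᶠ j : ℕ in atTop, ¬ D (List.ofFn fun i : Fin (A * (j * j)) => ω i) j := by
  classical
  obtain ⟨J, hJ⟩ := exists_nat_ge (max (2 * C) 1)
  have hJ1 : 2 * C ≤ J := (le_max_left _ _).trans hJ
  have hJ2 : 1 ≤ J := by exact_mod_cast (le_max_right _ _).trans hJ
  let D' : ℕ × List (Fin s) → ℕ → Prop := fun x j =>
    x.2.length = A * (j * j) ∧ J * 2 ^ x.1 ≤ j ∧ D x.2 j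
  have hD' : PrimrecRel D' := by
    have hjj : Primrec fun y : (ℕ × List (Fin s)) × ℕ => y.2 * y.2 :=
      Primrec.nat_mul.comp Primrec.snd Primrec.snd
    exact (Primrec.eq.comp (Primrec.list_length.comp (Primrec.snd.comp Primrec.fst))
      (Primrec.nat_mul.comp (Primrec.const A) hjj)).and
      ((Primrec.nat_le.comp (Primrec.nat_mul.comp (Primrec.const J)
        (primrec_pow.comp (Primrec.const 2) (Primrec.fst.comp Primrec.fst))) Primrec.snd).and
      (hD.comp (Primrec.snd.comp Primrec.fst) Primrec.snd))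
  let f : ℕ × List (Fin s) →. ℕ := fun x => Nat.rfind fun j => Part.some (decide (D' x j))
  have hf : Partrec f := Partrec.rfind hD'.decide.to_comp.partrec₂
  have hdom : ∀ x, (f x).Dom ↔ ∃ j, D' x j := by
    intro x
    refine Nat.rfind_dom.trans ?_
    simp
  have hU : ∀ (n : ℕ) (ξ : ℕ → Fin s),
      (∃ l : ℕ, (f (n, List.ofFn fun i : Fin l => ξ i)).Dom) ↔ ∃ j, J * 2 ^ n ≤ j ∧
        D (List.ofFn fun i : Fin (A * (j * j)) => ξ i) j := by
    intro n ξ
    simp only [hdom, D', List.length_ofFn]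
    constructor
    · rintro ⟨l, j, rfl, h1, h2⟩; exact ⟨j, h1, h2⟩
    · rintro ⟨j, h1, h2⟩; exact ⟨_, j, rfl, h1, h2⟩
  obtain ⟨n, hn⟩ := hω f hf.recursiveIn fun n => by
    set m := J * 2 ^ n with hm
    have hm1 : J ≤ m := Nat.le_mul_of_pos_right _ (by positivity)
    set E : ℕ → Set (ℕ → Fin s) := fun j => {ξ | m ≤ j ∧
      D (List.ofFn fun i : Fin (A * (j * j)) => ξ i) j} with hE
    have hEq : {ξ : ℕ → Fin s | ∃ l : ℕ, (f (n, List.ofFn fun i : Fin l => ξ i)).Dom}
        = ⋃ j, E j := by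
      ext ξ; simp only [Set.mem_ofPred_eq, hU, Set.mem_iUnion, hE, hm]
    have hEj : ∀ j, μ.real (E j) ≤ if m ≤ j then C * ((j : ℝ) ^ 2)⁻¹ else 0 := by
      intro j
      split_ifs with hj
      · exact le_trans (measureReal_mono fun ξ hξ => hξ.2) (hC j (by omega))
      · have : E j = ∅ := by
          ext ξ; simp only [hE, Set.mem_ofPred_eq, hj, false_and, Set.mem_empty_iff_false]
        rw [this]; simp
    rw [hEq]
    refine (measure_iUnion_le _).trans (ENNReal.tsum_le_of_sum_range_le fun K => ?_)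
    have h1 : ∑ j ∈ range K, μ.real (E j) ≤ (1 / 2) ^ n := by
      refine (sum_le_sum fun j _ => hEj j).trans ?_
      rw [← sum_filter, ← mul_sum]
      have h2 : (range K).filter (fun j => m ≤ j) = Ioo (m - 1) K := by
        ext j; simp only [mem_filter, mem_range, mem_Ioo]; omega
      rw [h2]
      have h3 := sum_Ioo_inv_sq_le (α := ℝ) (m - 1) K
      have h4 : (((m - 1 : ℕ) : ℝ) + 1) = J * 2 ^ n := by
        rw [Nat.cast_sub (by omega), hm]; push_cast; ring
      rw [h4] at h3
      have hJ0 : (0 : ℝ) < J := by exact_mod_cast (by omega : 0 < J)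
      calc C * ∑ j ∈ Ioo (m - 1) K, ((j : ℝ) ^ 2)⁻¹ ≤ C * (2 / (J * 2 ^ n)) := by gcongr
        _ = (2 * C / J) * (1 / 2) ^ n := by rw [one_div_pow]; field_simp
        _ ≤ 1 * (1 / 2) ^ n := by gcongr; rwa [div_le_one hJ0]
        _ = (1 / 2) ^ n := one_mul _
    calc ∑ j ∈ range K, μ (E j)
        = ENNReal.ofReal (∑ j ∈ range K, μ.real (E j)) := by
          rw [ENNReal.ofReal_sum_of_nonneg fun _ _ => measureReal_nonneg]
          exact sum_congr rfl fun j _ => (ofReal_measureReal).symm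
      _ ≤ ENNReal.ofReal ((1 / 2) ^ n) := ENNReal.ofReal_le_ofReal h1
      _ = (1 / 2) ^ n := by
          rw [ENNReal.ofReal_pow (by norm_num), ENNReal.ofReal_div_of_pos (by norm_num)]
          simp
  rw [hU] at hn
  filter_upwards [eventually_ge_atTop (J * 2 ^ n)] with j hj
  exact fun h => hn ⟨j, hj, h⟩

lemma measurableSet_win {K : ℕ} (S : (Fin K → Fin s) → Prop) (a : ℕ) :
    MeasurableSet {ξ : ℕ → Fin s | S fun k => ξ (a + k)} :=
  (show Measurable fun (ξ : ℕ → Fin s) (k : Fin K) => ξ (a + k) by fun_prop)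
    (MeasurableSet.of_discrete (s := {w | S w}))

/-- Chebyshev bound for disjoint windows. -/
lemma cheb_win (hp : IsDensity p) {K T : ℕ} (hKT : K ≤ T) (a : ℕ) (S : (Fin K → Fin s) → Prop)
    [DecidablePred S] {α : ℝ}
    (hα : ∀ i, (bernoulli p).real {ξ | S fun k => ξ (a + T * i + k)} = α) {ε : ℝ} (hε : 0 < ε)
    {N : ℕ} (hN : 0 < N) :
    (bernoulli p).real {ξ | (α + ε) * N
      ≤ (((range N).filter fun i => S fun k => ξ (a + T * i + k)).card : ℝ)}
      ≤ (ε ^ 2)⁻¹ * (N : ℝ)⁻¹ := by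
  have := bernoulli_prob hp
  have := law_prob hp
  have hN' : (0 : ℝ) < N := by exact_mod_cast hN
  let Y : ℕ → (ℕ → Fin s) → ℝ := fun i ξ => if S fun k => ξ (a + T * i + k) then 1 else 0
  have hYm : ∀ i, Measurable (Y i) := fun i =>
    Measurable.ite (measurableSet_win S (a + T * i)) measurable_const measurable_const
  have hYb : ∀ i ξ, Y i ξ ∈ Set.Icc (0 : ℝ) 1 := by
    intro i ξ; simp only [Y]; split_ifs <;> simp
  have hY2 : ∀ i, MemLp (Y i) 2 (bernoulli p) := fun i =>
    memLp_of_bounded (Eventually.of_forall (hYb i)) (hYm i).aestronglyMeasurable 2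
  have hi : iIndepFun (fun (i : ℕ) (ω : ℕ → Fin s) => ω i) (bernoulli p) :=
    iIndepFun_infinitePi (P := fun _ : ℕ => law p) (X := fun _ ω => ω) (by fun_prop)
  have hind : ∀ i j, i ≠ j → IndepFun (Y i) (Y j) (bernoulli p) := by
    intro i j hij
    have hd : Disjoint (Ico (a + T * i) (a + T * i + K)) (Ico (a + T * j) (a + T * j + K)) := by
      rw [disjoint_left]
      intro z hz hz'
      rw [mem_Ico] at hz hz'
      rcases lt_or_gt_of_ne hij with h | h
      · have := Nat.mul_le_mul_left T (Nat.succ_le_of_lt h)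
        rw [Nat.mul_succ] at this
        omega
      · have := Nat.mul_le_mul_left T (Nat.succ_le_of_lt h)
        rw [Nat.mul_succ] at this
        omega
    exact (hi.indepFun_finset _ _ hd fun _ => measurable_pi_apply _).comp
      (φ := fun g => if S fun k => g ⟨a + T * i + k, mem_Ico.2 ⟨by omega, by omega⟩⟩
        then (1 : ℝ) else 0)
      (ψ := fun g => if S fun k => g ⟨a + T * j + k, mem_Ico.2 ⟨by omega, by omega⟩⟩
        then (1 : ℝ) else 0) Measurable.of_discrete Measurable.of_discrete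
  have hE : ∀ i, ∫ ξ, Y i ξ ∂bernoulli p = α := by
    intro i
    rw [← hα i, ← integral_indicator_one (measurableSet_win S (a + T * i))]
    refine integral_congr_ae (Eventually.of_forall fun ξ => ?_)
    simp only [Y, Set.indicator, Set.mem_ofPred_eq, Pi.one_apply]
  have hvar : variance (∑ i ∈ range N, Y i) (bernoulli p) ≤ N := by
    rw [IndepFun.variance_sum (fun i _ => hY2 i) fun i _ j _ hij => hind i j hij]
    refine (sum_le_card_nsmul _ _ 1 fun i _ => ?_).trans (by simp)
    exact (variance_le_sq_of_bounded (Eventually.of_forall (hYb i)) (hYm i).aemeasurable).trans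
      (by norm_num)
  have hmean : ∫ ξ, (∑ i ∈ range N, Y i) ξ ∂bernoulli p = N * α := by
    simp only [Finset.sum_apply]
    rw [integral_finsetSum _ fun i _ => (hY2 i).integrable one_le_two]
    simp [hE]
  have h1 := meas_ge_le_variance_div_sq (memLp_finsetSum' (range N) fun i _ => hY2 i)
    (c := ε * N) (by positivity)
  rw [hmean] at h1
  refine le_trans (measureReal_mono (s₂ := {ξ | ε * N ≤ |(∑ i ∈ range N, Y i) ξ - N * α|})
    fun ξ hξ => ?_) ?_
  · simp only [Set.mem_ofPred_eq, Finset.sum_apply, Y] at hξ ⊢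
    rw [sum_boole]
    exact le_trans (by linarith) (le_abs_self _)
  · refine ENNReal.toReal_le_of_le_ofReal (by positivity) (h1.trans (ENNReal.ofReal_le_ofReal ?_))
    rw [div_le_iff₀ (by positivity)]
    refine hvar.trans (le_of_eq ?_)
    field_simp

/-- Upper bound along squares for the frequency of a window event along a progression. -/
lemma lln_sq [NeZero s] (hp : IsDensity p) {O : Set (ℕ →. ℕ)} {ω : ℕ → Fin s}
    (hω : IsMartinLofRandom O (bernoulli p) ω) {K T : ℕ} (hKT : K ≤ T) (a : ℕ)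
    (S : (Fin K → Fin s) → Prop) [DecidablePred S] {α : ℝ}
    (hα : ∀ i, (bernoulli p).real {ξ | S fun k => ξ (a + T * i + k)} = α) {ε : ℝ} (hε : 0 < ε) :
    ∀ᶠ j : ℕ in atTop, (((range (j * j)).filter fun i => S fun k => ω (a + T * i + k)).card : ℝ)
      ≤ (α + ε) * (j * j) := by
  have := bernoulli_prob hp
  have hα0 : 0 ≤ α := hα 0 ▸ measureReal_nonneg
  obtain ⟨Q, hQ⟩ := exists_nat_gt (2 / ε)
  have hQ' : (0 : ℝ) < Q := lt_trans (by positivity) hQ
  set u : ℕ := ⌈(α + ε / 2) * Q⌉₊ with hu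
  have hu1 : (α + ε / 2) * Q ≤ u := Nat.le_ceil _
  have hu2 : (u : ℝ) ≤ (α + ε) * Q := by
    have := Nat.ceil_lt_add_one (show 0 ≤ (α + ε / 2) * Q by positivity)
    rw [div_lt_iff₀ hε] at hQ
    rw [hu]; nlinarith
  let R : ℕ → List (Fin s) → Prop := fun i σ => S fun k => σ.getD (a + T * i + k) 0
  have hR : PrimrecRel R := by
    have h1 : Primrec fun (x : ℕ × List (Fin s)) (k : Fin K) => x.2.getD (a + T * x.1 + k) 0 :=
      Primrec.fin_curry.2 ((Primrec.list_getD 0).comp (Primrec.snd.comp Primrec.fst)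
        (Primrec.nat_add.comp (Primrec.nat_add.comp (Primrec.const a)
          (Primrec.nat_mul.comp (Primrec.const T) (Primrec.fst.comp Primrec.fst)))
          (Primrec.fin_val.comp Primrec.snd))).to₂
    have h2 : PrimrecPred S := (Primrec.dom_finite fun w => decide (S w)).primrecPred
    exact h2.comp h1
  let D : List (Fin s) → ℕ → Prop := fun σ j =>
    u * (j * j) < Q * ((List.range (j * j)).filter fun i => R i σ).length
  have hD : PrimrecRel D := by
    have hjj : Primrec fun y : List (Fin s) × ℕ => y.2 * y.2 :=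
      Primrec.nat_mul.comp Primrec.snd Primrec.snd
    exact Primrec.nat_lt.comp (Primrec.nat_mul.comp (Primrec.const u) hjj)
      (Primrec.nat_mul.comp (Primrec.const Q) (Primrec.list_length.comp
        (hR.listFilter.comp (Primrec.list_range.comp hjj) Primrec.fst)))
  have hDiff : ∀ (ξ : ℕ → Fin s) (j : ℕ), 1 ≤ j →
      (D (List.ofFn fun i : Fin ((a + T) * (j * j)) => ξ i) j ↔ u * (j * j)
        < Q * ((range (j * j)).filter fun i => S fun k => ξ (a + T * i + k)).card) := by
    intro ξ j hj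
    have : ((List.range (j * j)).filter fun i =>
        R i (List.ofFn fun i : Fin ((a + T) * (j * j)) => ξ i)).length
        = ((range (j * j)).filter fun i => S fun k => ξ (a + T * i + k)).card := by
      rw [← List.toFinset_card_of_nodup (List.nodup_range.filter _)]
      congr 1
      ext i
      simp only [List.mem_toFinset, List.mem_filter, List.mem_range, decide_eq_true_eq,
        mem_filter, mem_range, and_congr_right_iff, R]
      intro hi
      have h1 : ∀ k : Fin K, a + T * i + k < (a + T) * (j * j) := by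
        intro k
        have h2 := Nat.mul_le_mul_left T (Nat.succ_le_of_lt hi)
        have h3 : a ≤ a * (j * j) := Nat.le_mul_of_pos_right _ (by omega)
        have := k.2
        rw [Nat.mul_succ] at h2
        rw [add_mul]
        omega
      have h2 : (fun k : Fin K => (List.ofFn fun i : Fin ((a + T) * (j * j)) => ξ i).getD
          (a + T * i + k) 0) = fun k : Fin K => ξ (a + T * i + k) := by
        funext k
        rw [List.getD_eq_getElem _ _ (by rw [List.length_ofFn]; exact h1 k), List.getElem_ofFn]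
      rw [h2]
    simp only [D, this]
  have hbc := ml_bc hω hD (a + T) (C := ((ε / 2) ^ 2)⁻¹) (by positivity) fun j hj => by
    have h2 := cheb_win hp hKT a S hα (half_pos hε) (N := j * j) (Nat.mul_pos hj hj)
    refine le_trans (measureReal_mono fun ξ hξ => ?_) (h2.trans (le_of_eq ?_))
    · simp only [Set.mem_ofPred_eq] at hξ ⊢
      rw [hDiff _ _ hj, ← Nat.cast_lt (α := ℝ)] at hξ
      push_cast at hξ ⊢
      have h3 : (α + ε / 2) * Q * (j * j) ≤ (u : ℝ) * (j * j) := by gcongr
      exact le_of_mul_le_mul_left (by linarith) hQ'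
    · push_cast; rw [sq (j : ℝ)]
  filter_upwards [hbc, eventually_ge_atTop 1] with j h1 hj
  rw [hDiff _ _ hj, not_lt, ← Nat.cast_le (α := ℝ)] at h1
  push_cast at h1
  have h2 : (u : ℝ) * (j * j) ≤ (α + ε) * Q * (j * j) := by gcongr
  exact le_of_mul_le_mul_left (by linarith) hQ'

/-- From squares along each residue class to all lengths. -/
lemma upper_of_sq {P : ℕ → Prop} [DecidablePred P] {M : ℕ} (hM : 0 < M) {α : ℕ → ℝ} {β : ℝ}
    (hβ : ∑ ρ ∈ range M, α ρ = M * β) (hβ0 : 0 ≤ β)
    (h : ∀ ρ < M, ∀ ε > 0, ∀ᶠ j : ℕ in atTop,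
      (((range (j * j)).filter fun i => P (M * i + ρ)).card : ℝ) ≤ (α ρ + ε) * (j * j))
    {ε : ℝ} (hε : 0 < ε) :
    ∀ᶠ N : ℕ in atTop, (((range N).filter P).card : ℝ) ≤ (β + ε) * N := by
  have hM' : (0 : ℝ) < M := by exact_mod_cast hM
  have hsum : ∀ N, ((range (M * N)).filter P).card
      = ∑ ρ ∈ range M, ((range N).filter fun i => P (M * i + ρ)).card := by
    intro N
    simp only [card_filter]
    rw [sum_comm]
    induction N with
    | zero => simp
    | succ N ih => rw [mul_add, mul_one, sum_range_add, ih, sum_range_succ]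
  have hsq : ∀ᶠ j : ℕ in atTop,
      (((range (M * (j * j))).filter P).card : ℝ) ≤ (β + ε / 2) * (M * (j * j)) := by
    filter_upwards [(eventually_all_finset (range M)).2 fun ρ hρ =>
      h ρ (mem_range.1 hρ) (ε / 2) (half_pos hε)] with j hj
    rw [hsum]
    push_cast
    refine (sum_le_sum hj).trans (le_of_eq ?_)
    rw [← sum_mul, sum_add_distrib, hβ]
    simp only [sum_const, card_range, nsmul_eq_mul]
    ring
  obtain ⟨j0, hj0⟩ := eventually_atTop.1 hsq
  obtain ⟨T, hT⟩ := exists_nat_ge (3 * (β + ε / 2) / (ε / 2))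
  filter_upwards [eventually_ge_atTop (M * ((j0 + T + 1) * (j0 + T + 1)))] with N hN
  set j := Nat.sqrt (N / M) with hj
  have h1 : j0 + T + 1 ≤ j := Nat.le_sqrt.2 ((Nat.le_div_iff_mul_le hM).2 (by rwa [mul_comm]))
  have h2 : M * (j * j) ≤ N := by
    rw [mul_comm]; exact (Nat.le_div_iff_mul_le hM).1 (Nat.sqrt_le _)
  have h3 : N < M * ((j + 1) * (j + 1)) := by
    rw [mul_comm]; exact (Nat.div_lt_iff_lt_mul hM).1 (Nat.lt_succ_sqrt _)
  have h4 := hj0 (j + 1) (by omega)
  have h5 : (((range N).filter P).card : ℝ)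
      ≤ ((range (M * ((j + 1) * (j + 1)))).filter P).card := by
    exact_mod_cast card_le_card (filter_subset_filter _ (range_subset_range.2 h3.le))
  have h2' : (M : ℝ) * (j * j) ≤ N := by exact_mod_cast h2
  have h6 : (T : ℝ) + 1 ≤ j := by exact_mod_cast (by omega : T + 1 ≤ j)
  have hT0 : (0 : ℝ) ≤ T := Nat.cast_nonneg T
  rw [div_le_iff₀ (by positivity)] at hT
  push_cast at h4
  have h7 : (β + ε / 2) * (2 * j + 1) ≤ ε / 2 * (j * j) := by
    have : (β + ε / 2) * (2 * j + 1) ≤ (β + ε / 2) * (3 * j) := by gcongr; linarith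
    have h8 : 3 * (β + ε / 2) ≤ j * (ε / 2) := hT.trans (by gcongr; linarith)
    have h9 : 3 * (β + ε / 2) * j ≤ j * (ε / 2) * j := by gcongr
    linarith
  have h10 : (β + ε) * (M * (j * j)) ≤ (β + ε) * N := by gcongr
  have h11 := mul_le_mul_of_nonneg_left h7 hM'.le
  nlinarith

lemma tendsto_of_two {P : ℕ → Prop} [DecidablePred P] {β : ℝ}
    (h1 : ∀ ε > 0, ∀ᶠ N : ℕ in atTop, (((range N).filter P).card : ℝ) ≤ (β + ε) * N)
    (h2 : ∀ ε > 0, ∀ᶠ N : ℕ in atTop,
      (((range N).filter fun i => ¬ P i).card : ℝ) ≤ (1 - β + ε) * N) :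
    Tendsto (fun N : ℕ => (((range N).filter P).card : ℝ) / N) atTop (𝓝 β) := by
  rw [Metric.tendsto_nhds]
  intro ε hε
  filter_upwards [h1 _ (half_pos hε), h2 _ (half_pos hε), eventually_gt_atTop 0] with N h3 h4 hN
  have hN' : (0 : ℝ) < N := by exact_mod_cast hN
  have h5 : (((range N).filter P).card : ℝ) + ((range N).filter fun i => ¬ P i).card = N := by
    exact_mod_cast (card_filter_add_card_filter_not (s := range N) P).trans (card_range N)
  rw [Real.dist_eq, abs_lt, lt_sub_iff_add_lt, sub_lt_iff_lt_add, lt_div_iff₀ hN', div_lt_iff₀ hN']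
  have := mul_pos hε hN'
  constructor <;> nlinarith

end Pool.Agent.P.MP_3eba60_lc
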