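import Pool.Agent.P.MP_3eba60_lc.Fourier

/-!
Deviation estimates for `n ↦ r ^ n x` under the Bernoulli measure.
-/

namespace Pool.Agent.P.MP_3eba60_lc

open Complex Real MeasureTheory Filter Topology Finset ProbabilityTheory ComplexConjugate

noncomputable section

variable {s : ℕ} {p : Fin s → ℝ}

lemma sum_half_le (N : ℕ) : ∑ m ∈ range N, (1 / 2 : ℝ) ^ (N - m) ≤ 1 := by
  induction N with
  | zero => simp
  | succ N ih =>
    have : ∑ m ∈ range N, (1 / 2 : ℝ) ^ (N + 1 - m) = (∑ m ∈ range N, (1 / 2 : ℝ) ^ (N - m)) / 2 := by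
      rw [sum_div]
      refine sum_congr rfl fun m hm => ?_
      rw [show N + 1 - m = N - m + 1 by have := mem_range.1 hm; omega, pow_succ]; ring
    rw [sum_range_succ, this, show N + 1 - N = 1 by omega]
    linarith

lemma l2_bound (hp : IsDensity p) {Y : ℕ → (ℕ → Fin s) → ℂ} (hY : ∀ n, Continuous (Y n)) {C : ℝ}
    (hC : 0 ≤ C)
    (h : ∀ m n, m ≤ n → ‖∫ ω, Y n ω * conj (Y m ω) ∂bernoulli p‖ ≤ C * (1 / 2) ^ (n - m))
    (N : ℕ) : ∫ ω, ‖∑ n ∈ range N, Y n ω‖ ^ 2 ∂bernoulli p ≤ 3 * C * N := by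
  have hint : ∀ m n, Integrable (fun ω => Y n ω * conj (Y m ω)) (bernoulli p) := fun m n =>
    integrable_of_continuous hp ((hY n).mul (continuous_conj.comp (hY m)))
  have hre : ∀ m n, m ≤ n →
      ∫ ω, (Y n ω * conj (Y m ω)).re ∂bernoulli p ≤ C * (1 / 2) ^ (n - m) := by
    intro m n hmn
    have := integral_re (hint m n)
    simp only [RCLike.re_to_complex] at this
    rw [this]
    exact (Complex.re_le_norm _).trans (h m n hmn)
  induction N with
  | zero => simp
  | succ N ih =>
    have e : ∀ ω, ‖∑ n ∈ range (N + 1), Y n ω‖ ^ 2 = ‖∑ n ∈ range N, Y n ω‖ ^ 2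
        + (2 * ∑ m ∈ range N, (Y N ω * conj (Y m ω)).re + (Y N ω * conj (Y N ω)).re) := by
      intro ω
      rw [sum_range_succ, add_comm, Complex.sq_norm, Complex.sq_norm, Complex.normSq_add,
        Complex.mul_conj, ofReal_re, map_sum conj, mul_sum, re_sum]
      ring
    simp only [e]
    have i1 : Integrable (fun ω => ‖∑ n ∈ range N, Y n ω‖ ^ 2) (bernoulli p) :=
      integrable_of_continuous hp (by fun_prop)
    have i2 : Integrable (fun ω => ∑ m ∈ range N, (Y N ω * conj (Y m ω)).re) (bernoulli p) :=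
      integrable_finsetSum _ fun m _ => (hint m N).re
    have i3 : ∀ m n, Integrable (fun ω => (Y n ω * conj (Y m ω)).re) (bernoulli p) :=
      fun m n => (hint m n).re
    have i4 : Integrable (fun ω => 2 * ∑ m ∈ range N, (Y N ω * conj (Y m ω)).re
        + (Y N ω * conj (Y N ω)).re) (bernoulli p) := (i2.const_mul 2).add (i3 N N)
    rw [integral_add i1 i4, integral_add (i2.const_mul 2) (i3 N N), integral_const_mul,
      integral_finsetSum _ fun m _ => i3 m N]
    have h1 : ∑ m ∈ range N, ∫ ω, (Y N ω * conj (Y m ω)).re ∂bernoulli p ≤ C := by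
      refine (sum_le_sum fun m hm => hre m N (mem_range.1 hm).le).trans ?_
      rw [← mul_sum]
      exact mul_le_of_le_one_right hC (sum_half_le N)
    have h2 := hre N N le_rfl
    simp only [Nat.sub_self, pow_zero, mul_one] at h2
    push_cast
    linarith

/-- Deviations of linear size have probability `O(1 / N)`. -/
def Small (p : Fin s → ℝ) (S : ℕ → (ℕ → Fin s) → ℂ) : Prop :=
  ∀ ε > 0, ∃ C : ℝ, ∀ᶠ N : ℕ in atTop, (bernoulli p).real {ω | ε * N < ‖S N ω‖} ≤ C / N

lemma small_char [NeZero s] (hs : 2 ≤ s) (hp : IsDensity p) {r : ℕ} (hr : 2 ≤ r)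
    (hα : Irrational (Real.logb s r)) {h : ℤ} (hh : h ≠ 0) :
    Small p fun N ω => ∑ n ∈ range N, ee (h * (r ^ n * Real.ofDigits ω)) := by
  have := bernoulli_prob hp
  intro ε hε
  have hs' : (1 : ℝ) < s := by exact_mod_cast hs
  have hr' : (2 : ℝ) ≤ r := by exact_mod_cast hr
  set α := Real.logb s r with hαdef
  have hα0 : 0 < α := Real.logb_pos hs' (by linarith)
  have hrpow : ∀ n : ℕ, (r : ℝ) ^ n = (s : ℝ) ^ (n * α) := by
    intro n
    rw [mul_comm, Real.rpow_mul_natCast (by linarith), hαdef,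
      Real.rpow_logb (by linarith) (by linarith) (by linarith)]
  obtain ⟨k, hk⟩ := ((tendsto_integral_ft hs hp hh).eventually
    (ge_mem_nhds (show (0 : ℝ) < ε / 8 by positivity))).exists
  obtain ⟨G, hGc, hGp, hGF, hGi⟩ := exists_majorant
    (F := fun θ => ‖ft p (h * (s : ℝ) ^ θ * s ^ k)‖)
    (by
      have := continuous_ft hp
      have : Continuous fun θ : ℝ => (s : ℝ) ^ θ := continuous_const_rpow (by linarith)
      fun_prop)
    (fun _ => norm_nonneg _) (fun _ => norm_ft_le hp _) (show (0 : ℝ) < ε / 8 by positivity)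
  have hweyl := weyl hα (g := fun t => (G t : ℂ)) (by fun_prop) (fun t => by simp [hGp t])
    (ε / 8) (by positivity)
  obtain ⟨n0, hn0⟩ := eventually_atTop.1
    ((tendsto_natCast_atTop_atTop.atTop_mul_const hα0).eventually_ge_atTop (k : ℝ))
  set L : ℕ → ℕ := fun n => ⌊n * α⌋₊ - k with hL
  have hLmono : ∀ m n, m ≤ n → L m ≤ L n := fun m n hmn =>
    Nat.sub_le_sub_right (Nat.floor_le_floor (by gcongr)) k
  set c : ℕ → ℂ := fun n => ft p (h * r ^ n * ((s : ℝ) ^ L n)⁻¹) with hc
  set Y : ℕ → (ℕ → Fin s) → ℂ := fun n ω =>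
    ee (h * r ^ n * Real.ofDigits ω) - ee (h * r ^ n * trunc (L n) ω) * c n with hY
  have hYc : ∀ n, Continuous (Y n) := fun n =>
    (continuous_ee_ofDigits _).sub (by fun_prop)
  have hY2 : ∀ n ω, ‖Y n ω‖ ≤ 2 := by
    intro n ω
    refine (norm_sub_le _ _).trans ?_
    rw [norm_mul, norm_ee, norm_ee]
    linarith [norm_ft_le hp (h * r ^ n * ((s : ℝ) ^ L n)⁻¹)]
  have hsL : ∀ n, ((s : ℝ) ^ L n)⁻¹ ≤ (s : ℝ) ^ (k + 1) / r ^ n := by
    intro n
    rw [le_div_iff₀ (by positivity), inv_mul_le_iff₀ (by positivity), ← pow_add, hrpow,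
      ← Real.rpow_natCast]
    apply Real.rpow_le_rpow_of_exponent_le hs'.le
    have h1 := Nat.lt_floor_add_one (n * α)
    have h2 : ⌊n * α⌋₊ + 1 ≤ L n + (k + 1) := by simp only [hL]; omega
    have h3 : ((⌊n * α⌋₊ + 1 : ℕ) : ℝ) ≤ ((L n + (k + 1) : ℕ) : ℝ) := by exact_mod_cast h2
    push_cast at h3 ⊢
    linarith
  set C : ℝ := 4 * π * |(h : ℝ)| * (s : ℝ) ^ (k + 1) with hC
  have hcorr : ∀ m n, m ≤ n →
      ‖∫ ω, Y n ω * conj (Y m ω) ∂bernoulli p‖ ≤ C * (1 / 2) ^ (n - m) := by
    intro m n hmn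
    set W : (ℕ → Fin s) → ℂ := fun ω =>
      ee (h * r ^ m * trunc (L n) ω) - ee (h * r ^ m * trunc (L m) ω) * c m with hW
    have hWc : Continuous W := by simp only [hW]; fun_prop
    have hWdep : ∀ ω ω' : ℕ → Fin s, (∀ i < L n, ω i = ω' i) → conj (W ω) = conj (W ω') := by
      intro ω ω' hω
      simp only [hW]
      rw [trunc_congr hω, trunc_congr fun i hi => hω i (hi.trans_le (hLmono m n hmn))]
    have h0 : ∫ ω, Y n ω * conj (W ω) ∂bernoulli p = 0 := by
      have e1 := integral_mul_ee hp (L n) hWdep (h * r ^ n)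
      have e2 : ∀ ω, Y n ω * conj (W ω) = conj (W ω) * ee (h * r ^ n * Real.ofDigits ω)
          - conj (W ω) * ee (h * r ^ n * trunc (L n) ω) * c n := by
        intro ω; simp only [hY]; ring
      simp only [e2]
      have i1 : Integrable (fun ω => conj (W ω) * ee (h * r ^ n * Real.ofDigits ω)) (bernoulli p) :=
        integrable_of_continuous hp ((continuous_conj.comp hWc).mul (continuous_ee_ofDigits _))
      have i2 : Integrable (fun ω => conj (W ω) * ee (h * r ^ n * trunc (L n) ω) * c n)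
          (bernoulli p) := integrable_of_continuous hp (by fun_prop)
      rw [integral_sub i1 i2, e1, integral_mul_const, sub_self]
    have h1 : ∫ ω, Y n ω * conj (Y m ω) ∂bernoulli p
        = ∫ ω, Y n ω * conj (Y m ω - W ω) ∂bernoulli p := by
      simp only [map_sub, mul_sub]
      have i1 : Integrable (fun ω => Y n ω * conj (Y m ω)) (bernoulli p) :=
        integrable_of_continuous hp ((hYc n).mul (continuous_conj.comp (hYc m)))
      have i2 : Integrable (fun ω => Y n ω * conj (W ω)) (bernoulli p) :=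
        integrable_of_continuous hp ((hYc n).mul (continuous_conj.comp hWc))
      rw [integral_sub i1 i2, h0, sub_zero]
    rw [h1]
    have h2 : ∀ ω, ‖Y n ω * conj (Y m ω - W ω)‖ ≤ C * (1 / 2) ^ (n - m) := by
      intro ω
      have e1 : Y m ω - W ω
          = ee (h * r ^ m * Real.ofDigits ω) - ee (h * r ^ m * trunc (L n) ω) := by
        simp only [hY, hW]; ring
      have e2 := norm_ee_sub (h * r ^ m * Real.ofDigits ω) (h * r ^ m * trunc (L n) ω)
      obtain ⟨e3, e4⟩ := sub_trunc (L n) ω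
      rw [← mul_sub, abs_mul, abs_mul, abs_of_nonneg e3, abs_of_pos (by positivity : (0 : ℝ) < r ^ m)]
        at e2
      have e5 : (r : ℝ) ^ m / r ^ n ≤ (1 / 2) ^ (n - m) := by
        obtain ⟨j, rfl⟩ := Nat.exists_eq_add_of_le hmn
        rw [Nat.add_sub_cancel_left, pow_add, div_mul_eq_div_div, div_self (by positivity),
          one_div_pow]
        gcongr
      rw [norm_mul, Complex.norm_conj, e1]
      calc ‖Y n ω‖ * ‖ee (h * r ^ m * Real.ofDigits ω) - ee (h * r ^ m * trunc (L n) ω)‖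
          ≤ 2 * (2 * π * (|(h : ℝ)| * r ^ m * ((s : ℝ) ^ (k + 1) / r ^ n))) := by
            refine mul_le_mul (hY2 n ω) (e2.trans ?_) (norm_nonneg _) (by norm_num)
            gcongr
            exact e4.trans (hsL n)
        _ = C * ((r : ℝ) ^ m / r ^ n) := by simp only [hC]; ring
        _ ≤ C * (1 / 2) ^ (n - m) := by gcongr
    simpa using norm_integral_le_of_norm_le_const (μ := bernoulli p) (Eventually.of_forall h2)
  have hC0 : 0 ≤ C := by positivity
  have hG0 : ∀ t, 0 ≤ G t := fun t => (norm_nonneg _).trans (hGF t)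
  have hcG : ∀ n, ‖c n‖ ≤ G (n * α) + if n < n0 then 1 else 0 := by
    intro n
    split_ifs with hn
    · linarith [norm_ft_le hp (h * r ^ n * ((s : ℝ) ^ L n)⁻¹), hG0 (n * α)]
    · have h1 : k ≤ ⌊n * α⌋₊ := Nat.le_floor (hn0 n (not_lt.1 hn))
      rw [add_zero]
      refine le_trans (le_of_eq ?_) (hGF (n * α))
      simp only [hc]
      congr 2
      have h2 : (s : ℝ) ^ ⌊n * α⌋₊ = (s : ℝ) ^ L n * s ^ k := by
        rw [← pow_add]; congr 1; simp only [hL]; omega
      have h3 : (r : ℝ) ^ n = (s : ℝ) ^ Int.fract (n * α) * (s : ℝ) ^ ⌊n * α⌋₊ := by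
        rw [hrpow, ← Real.rpow_natCast, ← Real.rpow_add (by linarith),
          natCast_floor_eq_intCast_floor (by positivity), Int.fract_add_floor]
      rw [h3, h2]; field_simp
  refine ⟨12 * C / ε ^ 2, ?_⟩
  filter_upwards [hweyl, (tendsto_natCast_atTop_atTop (R := ℝ)).eventually_ge_atTop (8 * n0 / ε),
    eventually_gt_atTop 0] with N hN1 hN2 hN3
  have hN : (0 : ℝ) < N := by exact_mod_cast hN3
  have hsumc : ∑ n ∈ range N, ‖c n‖ ≤ ε / 2 * N := by
    refine (sum_le_sum fun n _ => hcG n).trans ?_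
    rw [sum_add_distrib]
    have h1 := sum_le_of_disc (G := G) (fun n => n * α) N
    have h2 : ∑ n ∈ range N, (if n < n0 then (1 : ℝ) else 0) ≤ n0 := by
      rw [sum_boole]
      have : ((range N).filter fun n => n < n0).card ≤ n0 := by
        simpa using card_le_card (s := (range N).filter fun n => n < n0) (t := range n0)
          fun n hn => mem_range.2 (mem_filter.1 hn).2
      exact_mod_cast this
    rw [div_le_iff₀ hε] at hN2
    have h3 : N * ∫ t in (0 : ℝ)..1, G t ≤ N * (ε / 8 + ε / 8) := by gcongr; linarith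
    linarith
  have hsub : {ω : ℕ → Fin s | ε * N < ‖∑ n ∈ range N, ee (h * (r ^ n * Real.ofDigits ω))‖}
      ⊆ {ω | (ε / 2 * N) ^ 2 ≤ ‖∑ n ∈ range N, Y n ω‖ ^ 2} := by
    intro ω hω
    simp only [Set.mem_ofPred_eq] at hω ⊢
    have e1 : ∑ n ∈ range N, ee (h * (r ^ n * Real.ofDigits ω)) = ∑ n ∈ range N, Y n ω
        + ∑ n ∈ range N, ee (h * r ^ n * trunc (L n) ω) * c n := by
      rw [← sum_add_distrib]
      refine sum_congr rfl fun n _ => ?_
      simp only [hY]; rw [mul_assoc]; ring
    have e2 : ‖∑ n ∈ range N, ee (h * r ^ n * trunc (L n) ω) * c n‖ ≤ ε / 2 * N := by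
      refine (norm_sum_le _ _).trans (le_trans (le_of_eq ?_) hsumc)
      exact sum_congr rfl fun n _ => by rw [norm_mul, norm_ee, one_mul]
    rw [e1] at hω
    have e3 := norm_add_le (∑ n ∈ range N, Y n ω)
      (∑ n ∈ range N, ee (h * r ^ n * trunc (L n) ω) * c n)
    have : ε / 2 * N ≤ ‖∑ n ∈ range N, Y n ω‖ := by linarith
    gcongr
  refine (measureReal_mono hsub).trans ?_
  have hcheb := mul_meas_ge_le_integral_of_nonneg (μ := bernoulli p)
    (f := fun ω => ‖∑ n ∈ range N, Y n ω‖ ^ 2) (Eventually.of_forall fun ω => by positivity)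
    (integrable_of_continuous hp (by fun_prop)) ((ε / 2 * N) ^ 2)
  have := hcheb.trans (l2_bound hp hYc hC0 hcorr N)
  rw [← le_div_iff₀' (by positivity)] at this
  refine this.trans (le_of_eq ?_)
  field_simp
  ring

theorem small_disc [NeZero s] (hs : 2 ≤ s) (hp : IsDensity p) {r : ℕ} (hr : 2 ≤ r)
    (hα : Irrational (Real.logb s r)) {g : ℝ → ℂ} (hg : Continuous g)
    (hper : Function.Periodic g 1) :
    Small p fun N ω => disc g (fun n => r ^ n * Real.ofDigits ω) N := by
  have := bernoulli_prob hp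
  refine periodic_induction
    (fun g => Small p fun N ω => disc g (fun n => r ^ n * Real.ofDigits ω) N) ?_ ?_ ?_ ?_ hg hper
  · intro h
    by_cases hh : h = 0
    · subst hh
      intro ε hε
      refine ⟨0, Eventually.of_forall fun N => ?_⟩
      have : {ω : ℕ → Fin s | ε * N < ‖disc (fun t => ee (((0 : ℤ) : ℝ) * t))
          (fun n => r ^ n * Real.ofDigits ω) N‖} = ∅ := by
        ext ω
        simp only [disc_char_zero, norm_zero, Set.mem_ofPred_eq, Set.mem_empty_iff_false, iff_false,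
          not_lt]
        positivity
      rw [this]; simp
    · simp only [disc_char hh]
      exact small_char hs hp hr hα hh
  · intro f g hf hg h1 h2 ε hε
    obtain ⟨C1, h1⟩ := h1 (ε / 2) (by positivity)
    obtain ⟨C2, h2⟩ := h2 (ε / 2) (by positivity)
    refine ⟨C1 + C2, ?_⟩
    filter_upwards [h1, h2] with N a b
    rw [add_div]
    refine le_trans (measureReal_mono ?_) ((measureReal_union_le _ _).trans (add_le_add a b))
    intro ω hω
    simp only [Set.mem_ofPred_eq, Set.mem_union, disc_add hf hg] at hω ⊢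
    by_contra hcon
    push Not at hcon
    linarith [norm_add_le (disc f (fun n => r ^ n * Real.ofDigits ω) N)
      (disc g (fun n => r ^ n * Real.ofDigits ω) N)]
  · intro c f _ h1 ε hε
    obtain ⟨C, h1⟩ := h1 (ε / (‖c‖ + 1)) (by positivity)
    refine ⟨C, ?_⟩
    filter_upwards [h1] with N a
    refine le_trans (measureReal_mono ?_) a
    intro ω hω
    simp only [Set.mem_ofPred_eq, disc_smul, norm_mul] at hω ⊢
    rw [div_mul_eq_mul_div, div_lt_iff₀ (by positivity)]
    nlinarith [norm_nonneg (disc f (fun n => r ^ n * Real.ofDigits ω) N)]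
  · intro g hg h ε hε
    obtain ⟨P, hP, h1, h2⟩ := h (ε / 4) (by positivity)
    obtain ⟨C, h1⟩ := h1 (ε / 2) (by positivity)
    refine ⟨C, ?_⟩
    filter_upwards [h1] with N a
    refine le_trans (measureReal_mono ?_) a
    intro ω hω
    simp only [Set.mem_ofPred_eq] at hω ⊢
    have := norm_disc_le hg hP h2 (fun n => r ^ n * Real.ofDigits ω) N
    linarith

/-- The number of `n < N` with `fract (r ^ n x + c) < δ`. -/
def cnt (r : ℕ) (x c δ : ℝ) (N : ℕ) : ℕ :=
  ((range N).filter fun n => Int.fract (r ^ n * x + c) < δ).card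

theorem small_cnt [NeZero s] (hs : 2 ≤ s) (hp : IsDensity p) {r : ℕ} (hr : 2 ≤ r)
    (hα : Irrational (Real.logb s r)) (c : ℝ) {δ ε : ℝ} (hδ : 0 ≤ δ) (hε : 0 < ε) :
    ∃ C : ℝ, ∀ᶠ N : ℕ in atTop,
      (bernoulli p).real {ω | (δ + ε) * N < cnt r (Real.ofDigits ω) c δ N} ≤ C / N := by
  have := bernoulli_prob hp
  set η := ε / 3 with hη
  have hη0 : 0 < η := by positivity
  set F : ℝ → ℝ := fun θ => max 0 (min 1 (1 - (θ - δ) / η)) with hF
  have hFc : Continuous F := by simp only [hF]; fun_prop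
  have hF0 : ∀ t, 0 ≤ F t := fun t => le_max_left _ _
  have hF1 : ∀ t, F t ≤ 1 := fun t => max_le zero_le_one (min_le_left _ _)
  have hFi : ∫ t in (0 : ℝ)..1, F t ≤ δ + η := by
    by_cases h1 : 1 ≤ δ + η
    · have := intervalIntegral.integral_mono_on (μ := volume) zero_le_one
        (hFc.intervalIntegrable _ _) (g := fun _ => (1 : ℝ)) intervalIntegrable_const
        fun t _ => hF1 t
      simp at this
      linarith
    · push Not at h1
      rw [← intervalIntegral.integral_add_adjacent_intervals (b := δ + η)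
        (hFc.intervalIntegrable _ _) (hFc.intervalIntegrable _ _)]
      have a1 := intervalIntegral.integral_mono_on (μ := volume) (a := 0) (b := δ + η)
        (by positivity) (hFc.intervalIntegrable _ _) (g := fun _ => (1 : ℝ))
        intervalIntegrable_const fun t _ => hF1 t
      have a2 := intervalIntegral.integral_mono_on (μ := volume) (a := δ + η) (b := 1)
        h1.le (hFc.intervalIntegrable _ _) (g := fun _ => (0 : ℝ))
        intervalIntegrable_const fun t ht => by
          refine max_le le_rfl (min_le_of_right_le ?_)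
          rw [sub_nonpos, le_div_iff₀ hη0]
          linarith [ht.1]
      simp at a1 a2
      linarith
  obtain ⟨G, hGc, hGp, hGF, hGi⟩ := exists_majorant hFc hF0 hF1 hη0
  obtain ⟨C, hC⟩ := small_disc hs hp hr hα (g := fun t => (G (t + c) : ℂ)) (by fun_prop)
    (fun t => by simp only; rw [add_right_comm, hGp]) η hη0
  refine ⟨C, ?_⟩
  filter_upwards [hC] with N a
  refine le_trans (measureReal_mono ?_) a
  intro ω hω
  simp only [Set.mem_ofPred_eq] at hω ⊢
  have h1 := sum_le_of_disc (G := fun t => G (t + c)) (fun n => r ^ n * Real.ofDigits ω) N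
  have h2 : ∫ t in (0 : ℝ)..1, G (t + c) = ∫ t in (0 : ℝ)..1, G t := by
    rw [intervalIntegral.integral_comp_add_right]
    have := hGp.intervalIntegral_add_eq c 0
    rw [zero_add] at this ⊢
    rw [add_comm, this]
  have h3 : (cnt r (Real.ofDigits ω) c δ N : ℝ)
      ≤ ∑ n ∈ range N, G (r ^ n * Real.ofDigits ω + c) := by
    unfold cnt
    rw [← sum_boole]
    refine sum_le_sum fun n _ => ?_
    split_ifs with hn
    · refine le_trans ?_ (hGF _)
      refine le_max_of_le_right (le_min le_rfl ?_)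
      have : (Int.fract (r ^ n * Real.ofDigits ω + c) - δ) / η ≤ 0 :=
        div_nonpos_of_nonpos_of_nonneg (by linarith) hη0.le
      linarith
    · exact (hF0 _).trans (hGF _)
  rw [h2] at h1
  have h4 : N * ∫ t in (0 : ℝ)..1, G t ≤ N * (δ + η + η) := by gcongr; linarith
  have h5 : ε = 3 * η := by simp only [hη]; ring
  rw [h5] at hω
  linarith

end

end Pool.Agent.P.MP_3eba60_lc
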