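import Pool.Agent.P.MP_3eba60_lc.Mart

/-!
The Martin-Lof test, and the upper bound for visits to an arc along a random sequence.
-/

namespace Pool.Agent.P.MP_3eba60_lc

open Real MeasureTheory Filter Topology Finset

variable {s : ℕ} {p : Fin s → ℝ}

/-- The natural number written by a string of digits. -/
def val (σ : List (Fin s)) : ℕ := σ.foldl (fun (acc : ℕ) (d : Fin s) => acc * s + d.val) 0

/-- A computable form of `cnt`. -/
def cntN (r Q a c : ℕ) (σ : List (Fin s)) (N : ℕ) : ℕ :=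
  N.rec 0 fun n ih => ih +
    if (r ^ n * val σ * Q + a * s ^ σ.length) % (Q * s ^ σ.length) < c * s ^ σ.length then 1 else 0

lemma primrec_pow : Primrec₂ ((· ^ ·) : ℕ → ℕ → ℕ) := Primrec₂.unpaired'.1 Nat.Primrec.pow

lemma primrec_val : Primrec (val (s := s)) :=
  Primrec.list_foldl (h := fun _ (x : ℕ × Fin s) => x.1 * s + x.2) Primrec.id (Primrec.const 0)
    (Primrec.nat_add.comp (Primrec.nat_mul.comp (Primrec.fst.comp Primrec.snd) (Primrec.const s))
      (Primrec.fin_val.comp (Primrec.snd.comp Primrec.snd))).to₂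

lemma primrec_cntN (r Q a c : ℕ) : Primrec₂ (cntN (s := s) r Q a c) := by
  have hpow : Primrec fun x : List (Fin s) × ℕ × ℕ => s ^ x.1.length :=
    primrec_pow.comp (Primrec.const s) (Primrec.list_length.comp Primrec.fst)
  exact Primrec.nat_rec (f := fun _ : List (Fin s) => 0)
    (g := fun σ (x : ℕ × ℕ) => x.2 +
      if (r ^ x.1 * val σ * Q + a * s ^ σ.length) % (Q * s ^ σ.length) < c * s ^ σ.length
      then 1 else 0) (Primrec.const 0)
    (Primrec.nat_add.comp (Primrec.snd.comp Primrec.snd)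
      (Primrec.ite (Primrec.nat_lt.comp
        (Primrec.nat_mod.comp
          (Primrec.nat_add.comp
            (Primrec.nat_mul.comp (Primrec.nat_mul.comp
              (primrec_pow.comp (Primrec.const r) (Primrec.fst.comp Primrec.snd))
              (primrec_val.comp Primrec.fst)) (Primrec.const Q))
            (Primrec.nat_mul.comp (Primrec.const a) hpow))
          (Primrec.nat_mul.comp (Primrec.const Q) hpow))
        (Primrec.nat_mul.comp (Primrec.const c) hpow)) (Primrec.const 1) (Primrec.const 0))).to₂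

lemma val_ofFn [NeZero s] (ω : ℕ → Fin s) (l : ℕ) :
    (val (List.ofFn fun i : Fin l => ω i) : ℝ) = (s : ℝ) ^ l * trunc l ω := by
  have hs : (s : ℝ) ≠ 0 := by exact_mod_cast NeZero.ne s
  induction l with
  | zero => simp [val, trunc]
  | succ l ih =>
    rw [List.ofFn_succ_last]
    unfold val at ih ⊢
    rw [List.foldl_append]
    simp only [Fin.val_castSucc, Fin.val_last, List.foldl_cons, List.foldl_nil]
    push_cast
    rw [ih]
    unfold trunc
    rw [sum_range_succ, Real.ofDigitsTerm]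
    field_simp
    ring

lemma cnt_succ (r : ℕ) (x c δ : ℝ) (N : ℕ) :
    cnt r x c δ (N + 1) = cnt r x c δ N + if Int.fract (r ^ N * x + c) < δ then 1 else 0 := by
  unfold cnt
  rw [range_add_one, filter_insert]
  split_ifs with h
  · rw [card_insert_of_notMem (by simp)]
  · simp

lemma cntN_eq [NeZero s] (r a c : ℕ) {Q : ℕ} (hQ : 0 < Q) (ω : ℕ → Fin s) (l N : ℕ) :
    cntN r Q a c (List.ofFn fun i : Fin l => ω i) N = cnt r (trunc l ω) (a / Q) (c / Q) N := by
  have hs : (0 : ℝ) < s := by exact_mod_cast NeZero.pos s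
  have hQ' : (0 : ℝ) < Q := by exact_mod_cast hQ
  induction N with
  | zero => simp [cntN, cnt]
  | succ N ih =>
    rw [cnt_succ, ← ih]
    change cntN r Q a c _ N + _ = _
    congr 1
    rw [List.length_ofFn]
    have h1 : (r : ℝ) ^ N * trunc l ω + a / Q
        = ((r ^ N * val (List.ofFn fun i : Fin l => ω i) * Q + a * s ^ l : ℕ) : ℝ)
          / ((Q * s ^ l : ℕ) : ℝ) := by
      push_cast
      rw [val_ofFn]
      field_simp
    rw [h1, Int.fract_div_natCast_eq_div_natCast_mod]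
    refine if_congr ?_ rfl rfl
    rw [div_lt_div_iff₀ (by push_cast; positivity) hQ', ← Nat.cast_lt (α := ℝ)]
    push_cast
    constructor <;> intro h <;> nlinarith

lemma fract_add_le (t : ℝ) {e : ℝ} (he : 0 ≤ e) : Int.fract (t + e) ≤ Int.fract t + e := by
  have : ⌊t⌋ ≤ ⌊t + e⌋ := Int.floor_le_floor (by linarith)
  have h : ((⌊t⌋ : ℤ) : ℝ) ≤ ((⌊t + e⌋ : ℤ) : ℝ) := by exact_mod_cast this
  unfold Int.fract
  linarith

lemma cnt_le_cnt {r N : ℕ} {x y c c' δ δ' : ℝ}
    (h : ∀ n < N, ∃ e : ℝ, 0 ≤ e ∧ δ + e ≤ δ' ∧ ∃ m : ℤ, r ^ n * y + c' = r ^ n * x + c + e + m) :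
    cnt r x c δ N ≤ cnt r y c' δ' N := by
  refine card_le_card fun n hn => ?_
  rw [mem_filter] at hn ⊢
  obtain ⟨e, he, hδ, m, hm⟩ := h n (mem_range.1 hn.1)
  refine ⟨hn.1, ?_⟩
  rw [hm, Int.fract_add_intCast]
  linarith [fract_add_le (r ^ n * x + c) he, hn.2]

lemma cnt_mono (r : ℕ) (x c δ : ℝ) {M N : ℕ} (h : M ≤ N) : cnt r x c δ M ≤ cnt r x c δ N :=
  card_le_card (filter_subset_filter _ (range_subset_range.2 h))

lemma pow_le_pow_len (hs : 2 ≤ s) (r Q : ℕ) {j n : ℕ} (hj : 1 ≤ j) (hn : n < j * j) :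
    (r : ℝ) ^ n * ((s : ℝ) ^ ((r + 1 + Q) * (j * j)))⁻¹ * Q ≤ 1 := by
  have hjj : 1 ≤ j * j := Nat.mul_pos hj hj
  have h1 : r ^ n * Q ≤ s ^ ((r + 1 + Q) * (j * j)) := by
    calc r ^ n * Q ≤ (2 ^ (r + 1)) ^ (j * j) * 2 ^ (Q * (j * j)) := by
          apply Nat.mul_le_mul
          · calc r ^ n ≤ (r + 1) ^ n := Nat.pow_le_pow_left (by omega) _
              _ ≤ (r + 1) ^ (j * j) := Nat.pow_le_pow_right (by omega) hn.le
              _ ≤ (2 ^ (r + 1)) ^ (j * j) := Nat.pow_le_pow_left Nat.lt_two_pow_self.le _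
          · exact Nat.lt_two_pow_self.le.trans
              (Nat.pow_le_pow_right two_pos (Nat.le_mul_of_pos_right _ hjj))
      _ = 2 ^ ((r + 1 + Q) * (j * j)) := by rw [← pow_mul, ← pow_add]; congr 1; ring
      _ ≤ s ^ ((r + 1 + Q) * (j * j)) := Nat.pow_le_pow_left hs _
  have h2 : (0 : ℝ) < (s : ℝ) ^ ((r + 1 + Q) * (j * j)) := by
    have : (0 : ℝ) < s := by exact_mod_cast (by omega : 0 < s)
    positivity
  have h3 : ((r ^ n * Q : ℕ) : ℝ) ≤ ((s ^ ((r + 1 + Q) * (j * j)) : ℕ) : ℝ) := by exact_mod_cast h1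
  push_cast at h3
  rw [mul_right_comm, ← div_eq_mul_inv, div_le_one h2]
  exact h3

/-- Along squares, a random sequence satisfies the truncated counting bound. -/
lemma random_trunc [NeZero s] (hs : 2 ≤ s) (hp : IsDensity p) {r : ℕ} (hr : 2 ≤ r)
    (hα : Irrational (Real.logb s r)) {O : Set (ℕ →. ℕ)} {ω : ℕ → Fin s}
    (hω : IsMartinLofRandom O (bernoulli p) ω) (a c : ℕ) {Q : ℕ} (hQ : 0 < Q) :
    ∀ᶠ j : ℕ in atTop, Q * cnt r (trunc ((r + 1 + Q) * (j * j)) ω) (a / Q) (c / Q) (j * j)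
      ≤ (c + 2) * (j * j) := by
  have := bernoulli_prob hp
  have hQ' : (0 : ℝ) < Q := by exact_mod_cast hQ
  obtain ⟨C, hC⟩ := small_cnt hs hp hr hα (a / Q) (δ := (c + 1) / Q) (ε := 1 / Q)
    (by positivity) (by positivity)
  obtain ⟨N0, hN0⟩ := eventually_atTop.1 hC
  obtain ⟨J, hJ⟩ := exists_nat_ge (max (2 * C) (N0 + 1))
  have hJ1 : 2 * C ≤ J := (le_max_left _ _).trans hJ
  have hJ2 : N0 + 1 ≤ J := by exact_mod_cast (le_max_right _ _).trans hJ
  set A := r + 1 + Q with hA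
  let D : ℕ × List (Fin s) → ℕ → Prop := fun x j =>
    x.2.length = A * (j * j) ∧ J * 2 ^ x.1 ≤ j ∧ (c + 2) * (j * j) < Q * cntN r Q a c x.2 (j * j)
  have hD : PrimrecRel D := by
    have hjj : Primrec fun y : (ℕ × List (Fin s)) × ℕ => y.2 * y.2 :=
      Primrec.nat_mul.comp Primrec.snd Primrec.snd
    exact (Primrec.eq.comp (Primrec.list_length.comp (Primrec.snd.comp Primrec.fst))
      (Primrec.nat_mul.comp (Primrec.const A) hjj)).and
      ((Primrec.nat_le.comp (Primrec.nat_mul.comp (Primrec.const J)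
        (primrec_pow.comp (Primrec.const 2) (Primrec.fst.comp Primrec.fst))) Primrec.snd).and
      (Primrec.nat_lt.comp (Primrec.nat_mul.comp (Primrec.const (c + 2)) hjj)
        (Primrec.nat_mul.comp (Primrec.const Q)
          ((primrec_cntN r Q a c).comp (Primrec.snd.comp Primrec.fst) hjj))))
  let f : ℕ × List (Fin s) →. ℕ := fun x => Nat.rfind fun j => Part.some (decide (D x j))
  have hf : Partrec f := Partrec.rfind hD.decide.to_comp.partrec₂
  have hdom : ∀ x, (f x).Dom ↔ ∃ j, D x j := by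
    intro x
    refine Nat.rfind_dom.trans ?_
    simp
  have hU : ∀ (n : ℕ) (ξ : ℕ → Fin s),
      (∃ l : ℕ, (f (n, List.ofFn fun i : Fin l => ξ i)).Dom) ↔ ∃ j, J * 2 ^ n ≤ j ∧
        (c + 2) * (j * j) < Q * cnt r (trunc (A * (j * j)) ξ) (a / Q) (c / Q) (j * j) := by
    intro n ξ
    simp only [hdom, D, List.length_ofFn, cntN_eq r a c hQ]
    constructor
    · rintro ⟨l, j, rfl, h1, h2⟩; exact ⟨j, h1, h2⟩
    · rintro ⟨j, h1, h2⟩; exact ⟨_, j, rfl, h1, h2⟩
  obtain ⟨n, hn⟩ := hω f hf.recursiveIn fun n => by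
    set m := J * 2 ^ n with hm
    have hm1 : J ≤ m := Nat.le_mul_of_pos_right _ (by positivity)
    set E : ℕ → Set (ℕ → Fin s) := fun j => {ξ | m ≤ j ∧
      (c + 2) * (j * j) < Q * cnt r (trunc (A * (j * j)) ξ) (a / Q) (c / Q) (j * j)} with hE
    have hEq : {ξ : ℕ → Fin s | ∃ l : ℕ, (f (n, List.ofFn fun i : Fin l => ξ i)).Dom} = ⋃ j, E j := by
      ext ξ; simp only [Set.mem_ofPred_eq, hU, Set.mem_iUnion, hE, hm]
    have hEj : ∀ j, (bernoulli p).real (E j) ≤ if m ≤ j then C * ((j : ℝ) ^ 2)⁻¹ else 0 := by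
      intro j
      split_ifs with hj
      · have h1 := hN0 (j * j) (by nlinarith)
        refine le_trans (measureReal_mono fun ξ hξ => ?_) (h1.trans (le_of_eq ?_))
        · have h2 := hξ.2
          have h3 : cnt r (trunc (A * (j * j)) ξ) (a / Q) (c / Q) (j * j)
              ≤ cnt r (Real.ofDigits ξ) (a / Q) ((c + 1) / Q) (j * j) := by
            refine cnt_le_cnt fun i hi => ⟨r ^ i * (Real.ofDigits ξ - trunc (A * (j * j)) ξ),
              mul_nonneg (by positivity) (sub_trunc _ ξ).1, ?_, 0, by push_cast; ring⟩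
            have h4 := pow_le_pow_len hs r Q (j := j) (by omega) hi
            have h5 := mul_le_mul_of_nonneg_left (sub_trunc (A * (j * j)) ξ).2
              (by positivity : (0 : ℝ) ≤ r ^ i)
            rw [add_div, add_le_add_iff_left, le_div_iff₀ hQ']
            exact (mul_le_mul_of_nonneg_right h5 hQ'.le).trans h4
          have h6 : (((c + 2) * (j * j) : ℕ) : ℝ)
              < ((Q * cnt r (Real.ofDigits ξ) (a / Q) ((c + 1) / Q) (j * j) : ℕ) : ℝ) := by
            exact_mod_cast h2.trans_le (Nat.mul_le_mul_left _ h3)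
          simp only [Set.mem_ofPred_eq]
          push_cast at h6 ⊢
          rw [← add_div, div_mul_eq_mul_div, div_lt_iff₀ hQ']
          linarith
        · push_cast; rw [div_eq_mul_inv, sq]
      · have : E j = ∅ := by
          ext ξ; simp only [hE, Set.mem_ofPred_eq, hj, false_and, Set.mem_empty_iff_false]
        rw [this]; simp
    have hC0 : 0 ≤ C := by
      have := (measureReal_nonneg).trans (hN0 (N0 + 1) (by omega))
      have h2 : (0 : ℝ) < ((N0 + 1 : ℕ) : ℝ) := by positivity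
      exact (div_nonneg_iff.1 this).elim (fun h => h.1) fun h => absurd h.2 (not_le.2 h2)
    rw [hEq]
    refine (measure_iUnion_le _).trans (ENNReal.tsum_le_of_sum_range_le fun K => ?_)
    have h1 : ∑ j ∈ range K, (bernoulli p).real (E j) ≤ (1 / 2) ^ n := by
      refine (sum_le_sum fun j _ => hEj j).trans ?_
      rw [← sum_filter, ← mul_sum]
      have h2 : (range K).filter (fun j => m ≤ j) = Ioo (m - 1) K := by
        ext j; simp only [mem_filter, mem_range, mem_Ioo]; omega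
      rw [h2]
      have h3 := sum_Ioo_inv_sq_le (α := ℝ) (m - 1) K
      have h4 : (((m - 1 : ℕ) : ℝ) + 1) = J * 2 ^ n := by
        rw [Nat.cast_sub (by omega), hm]; push_cast; ring
      rw [h4] at h3
      have hJ0 : (0 : ℝ) < J := by exact_mod_cast (by omega : 0 < J)
      calc C * ∑ j ∈ Ioo (m - 1) K, ((j : ℝ) ^ 2)⁻¹ ≤ C * (2 / (J * 2 ^ n)) := by gcongr
        _ = (2 * C / J) * (1 / 2) ^ n := by rw [one_div_pow]; field_simp
        _ ≤ 1 * (1 / 2) ^ n := by gcongr; rwa [div_le_one hJ0]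
        _ = (1 / 2) ^ n := one_mul _
    calc ∑ j ∈ range K, bernoulli p (E j)
        = ENNReal.ofReal (∑ j ∈ range K, (bernoulli p).real (E j)) := by
          rw [ENNReal.ofReal_sum_of_nonneg fun _ _ => measureReal_nonneg]
          exact sum_congr rfl fun j _ => (ofReal_measureReal).symm
      _ ≤ ENNReal.ofReal ((1 / 2) ^ n) := ENNReal.ofReal_le_ofReal h1
      _ = (1 / 2) ^ n := by
          rw [ENNReal.ofReal_pow (by norm_num), ENNReal.ofReal_div_of_pos (by norm_num)]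
          simp
  rw [hU] at hn
  filter_upwards [eventually_ge_atTop (J * 2 ^ n)] with j hj
  exact not_lt.1 fun h => hn ⟨j, hj, h⟩

/-- Upper bound for the frequency of visits to an arc along a random sequence. -/
theorem random_cnt [NeZero s] (hs : 2 ≤ s) (hp : IsDensity p) {r : ℕ} (hr : 2 ≤ r)
    (hα : Irrational (Real.logb s r)) {O : Set (ℕ →. ℕ)} {ω : ℕ → Fin s}
    (hω : IsMartinLofRandom O (bernoulli p) ω) (c : ℝ) {δ ε : ℝ} (hδ : 0 ≤ δ) (hε : 0 < ε) :
    ∀ᶠ N : ℕ in atTop, (cnt r (Real.ofDigits ω) c δ N : ℝ) ≤ (δ + ε) * N := by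
  obtain ⟨Q, hQ⟩ := exists_nat_gt (10 / ε)
  have hQ' : (0 : ℝ) < Q := lt_trans (by positivity) hQ
  have hQ0 : 0 < Q := by exact_mod_cast hQ'
  set a : ℕ := ⌈Int.fract c * Q⌉₊ + 1 with ha
  set c' : ℕ := ⌈δ * Q⌉₊ + 2 with hc'
  have ha1 : Int.fract c * Q + 1 ≤ a := by
    rw [ha]; push_cast; linarith [Nat.le_ceil (Int.fract c * Q)]
  have ha2 : (a : ℝ) ≤ Int.fract c * Q + 2 := by
    rw [ha]; push_cast
    linarith [Nat.ceil_lt_add_one (mul_nonneg (Int.fract_nonneg c) hQ'.le)]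
  have hc1 : δ * Q + 2 ≤ c' := by rw [hc']; push_cast; linarith [Nat.le_ceil (δ * Q)]
  have hc2 : (c' : ℝ) ≤ δ * Q + 3 := by
    rw [hc']; push_cast; linarith [Nat.ceil_lt_add_one (mul_nonneg hδ hQ'.le)]
  have hsq : ∀ᶠ j : ℕ in atTop,
      (cnt r (Real.ofDigits ω) c δ (j * j) : ℝ) ≤ (δ + ε / 2) * (j * j) := by
    filter_upwards [random_trunc hs hp hr hα hω a c' hQ0, eventually_ge_atTop 1] with j h1 hj
    set y := trunc ((r + 1 + Q) * (j * j)) ω with hy
    have h2 : cnt r (Real.ofDigits ω) c δ (j * j) ≤ cnt r y (a / Q) (c' / Q) (j * j) := by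
      refine cnt_le_cnt fun i hi => ?_
      have h4 := pow_le_pow_len hs r Q hj hi
      obtain ⟨h5, h6⟩ := sub_trunc ((r + 1 + Q) * (j * j)) ω
      have h7 := mul_le_mul_of_nonneg_left h6 (by positivity : (0 : ℝ) ≤ r ^ i)
      have h8 : r ^ i * (Real.ofDigits ω - y) * Q ≤ 1 :=
        (mul_le_mul_of_nonneg_right h7 hQ'.le).trans h4
      have h9 : 0 ≤ r ^ i * (Real.ofDigits ω - y) * Q := by positivity
      refine ⟨(a - Int.fract c * Q - r ^ i * (Real.ofDigits ω - y) * Q) / Q,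
        div_nonneg (by linarith) hQ'.le, ?_, -⌊c⌋, ?_⟩
      · rw [le_div_iff₀ hQ', add_mul, div_mul_cancel₀ _ hQ'.ne']
        linarith
      · unfold Int.fract; push_cast; field_simp; ring
    have h3 : ((Q * cnt r (Real.ofDigits ω) c δ (j * j) : ℕ) : ℝ) ≤ (((c' + 2) * (j * j) : ℕ) : ℝ) := by
      exact_mod_cast (Nat.mul_le_mul_left _ h2).trans h1
    push_cast at h3
    have h4 : (c' : ℝ) + 2 ≤ Q * (δ + ε / 2) := by
      rw [div_lt_iff₀ hε] at hQ
      nlinarith
    have h5 : ((c' : ℝ) + 2) * (j * j) ≤ Q * (δ + ε / 2) * (j * j) := by gcongr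
    exact le_of_mul_le_mul_left (by linarith) hQ'
  obtain ⟨j0, hj0⟩ := eventually_atTop.1 hsq
  obtain ⟨T, hT⟩ := exists_nat_ge (3 * (δ + ε / 2) / (ε / 2))
  filter_upwards [eventually_ge_atTop ((j0 + T + 1) * (j0 + T + 1))] with N hN
  set j := Nat.sqrt N with hj
  have h1 : j0 + T + 1 ≤ j := Nat.le_sqrt.2 hN
  have h2 : j * j ≤ N := Nat.sqrt_le N
  have h3 : N < (j + 1) * (j + 1) := Nat.lt_succ_sqrt N
  have h4 := hj0 (j + 1) (by omega)
  have h5 : (cnt r (Real.ofDigits ω) c δ N : ℝ)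
      ≤ cnt r (Real.ofDigits ω) c δ ((j + 1) * (j + 1)) := by
    exact_mod_cast cnt_mono r _ c δ h3.le
  have h2' : (j : ℝ) * j ≤ N := by exact_mod_cast h2
  have h6 : (T : ℝ) + 1 ≤ j := by exact_mod_cast (by omega : T + 1 ≤ j)
  have hT0 : (0 : ℝ) ≤ T := Nat.cast_nonneg T
  rw [div_le_iff₀ (by positivity)] at hT
  push_cast at h4
  have h7 : (δ + ε / 2) * (2 * j + 1) ≤ ε / 2 * (j * j) := by
    have : (δ + ε / 2) * (2 * j + 1) ≤ (δ + ε / 2) * (3 * j) := by gcongr; linarith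
    have h8 : 3 * (δ + ε / 2) ≤ j * (ε / 2) := hT.trans (by gcongr; linarith)
    have h9 : 3 * (δ + ε / 2) * j ≤ j * (ε / 2) * j := by gcongr
    linarith
  have h10 : (δ + ε) * (j * j) ≤ (δ + ε) * N := by gcongr
  nlinarith

end Pool.Agent.P.MP_3eba60_lc
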